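import Pool.Agent.U974.TW.Fld2
import Pool.Agent.U120.MF.Fld

/-! # The twists over multiquadratic fields -/

set_option autoImplicit false

open scoped Classical

open WeierstrassCurve NumberField
open scoped symmDiff

namespace Pool.Agent.U974.TW

open Pool.Agent.TH841.NF.D (Sha)
open Pool.Agent.R413.SQ (Gd)
open Pool.Agent.Y698.SG (n4)
open Pool.Agent.U120.MF (P4 KT TT sub_KT tw_mem prod_adm tt_gd nz_of)
open Pool.Agent.U80.MQ (tc Om NZ tw fin_K lf_K exists_gens sha_K)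

/-- the twist by the product of `P` over the fields generated by square roots of elements of `J` -/
theorem fieldsJ {P J : Finset ℕ} (hP : ∀ p ∈ P, P4 p) (hJ : ∀ p ∈ J, P4 p)
    (hG : ∀ S, S ⊆ J → Gd n4 (P ∆ S)) (K : IntermediateField ℚ ℂ) (hK : K ≤ KT (J : Set ℕ)) [NumberField K] :
    Finite (tc (∏ p ∈ P, p) K).toAffine.Point ∧
    (∃ G : ℂ → ℂ, Differentiable ℂ G ∧ (∀ s : ℂ, 3 / 2 < s.re →
      HasProd (Pool.Agent.U80.MQ.factor (K := K) (Pool.Agent.U80.MQ.A (∏ p ∈ P, p))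
        (Pool.Agent.U80.MQ.B (∏ p ∈ P, p)) s) (G s)) ∧ G 1 ≠ 0) ∧
    ∀ (k : ℕ) (x : Sha (tc (∏ p ∈ P, p) K)), (2 ^ k : ℕ) • x = 0 → Module.finrank ℚ K • x = 0 := by
  have hfd : FiniteDimensional ℚ K := NumberField.to_finiteDimensional
  obtain ⟨Q, hQ1, hQ2⟩ := sub_KT K hK
  have hQJ : Q ⊆ J := Finset.coe_subset.1 hQ1
  have hQ' : ∀ q ∈ Q, P4 q := fun q hq => hJ q (hQJ hq)
  have hA := (prod_adm hP).1
  let T : Set ℕ := ((P ∪ J : Finset ℕ) : Set ℕ)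
  have hT : ∀ p ∈ T, P4 p := by
    intro p hp
    rcases Finset.mem_union.1 (Finset.mem_coe.1 hp) with h | h
    · exact hP p h
    · exact hJ p h
  have hPT : (P : Set ℕ) ⊆ T := Finset.coe_subset.2 Finset.subset_union_left
  have hST : ∀ S, S ⊆ Q → (S : Set ℕ) ⊆ T := fun S hS =>
    Finset.coe_subset.2 ((hS.trans hQJ).trans Finset.subset_union_right)
  have hGS : ∀ S, S ⊆ Q → Gd n4 (P ∆ S) ∧ ∀ q ∈ P ∆ S, P4 q := by
    intro S hS
    refine ⟨hG S (hS.trans hQJ), fun q hq => ?_⟩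
    rcases Finset.mem_symmDiff.1 hq with h | h
    · exact hP q h.1
    · exact hQ' q (hS h.1)
  have hTT : ∀ S, S ⊆ Q → TT (tw (∏ q ∈ S, q) (∏ q ∈ P, q)) := by
    intro S hS
    rw [tw_mem hT (hST S hS) hPT]
    exact (tt_gd (hGS S hS).2).2 (hGS S hS).1
  refine ⟨fin_K (fun q hq => (hQ' q hq).1) hA.1.ne_zero (fun S hS => (hTT S hS).1) K hQ2,
    lf_K Q (fun q hq => hQ' q hq) hA.1 (fun S hS => ?_) K hQ2, fun k x hx => ?_⟩
  · rw [tw_mem hT (hST S hS) hPT]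
    obtain ⟨a1, a2⟩ := prod_adm (hGS S hS).2
    refine nz_of a1 ?_
    rw [a2]
    exact (hGS S hS).1
  · obtain ⟨n, S, r, hS, -, hr, hgen, hdeg⟩ := exists_gens K hQ2
    rw [hdeg]
    exact sha_K (fun q hq => (hQ' q hq).1.ne_zero) hA.1.ne_zero (fun T hT => (hTT T hT).2) n S hS
      K r hr hgen (tc (∏ p ∈ P, p) K) (by
        refine ⟨one_ne_zero, ?_, ?_, ?_, ?_, ?_⟩ <;>
          simp [tc, Pool.Agent.U80.MQ.A, Pool.Agent.U80.MQ.B, Pool.Agent.R413.SQ.Cor.ES,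
            Pool.Agent.R413.SQ.Cor.a, Pool.Agent.R413.SQ.Cor.b]) k x hx

variable {m : ℕ} {G : SimpleGraph (Fin m)} {f : Fin m → ℕ} {c : ZMod 2} {T : Finset ℕ} {r : ℕ}

theorem CfgF.symm_diff (h : CfgF G f c T r) (U : Finset ℕ) {J : Finset ℕ} (hJ : J ⊆ T)
    (b : Bool) (S : Finset (Fin m)) : PP f r U b S ∆ J = PP f r (U ∆ J) b S := by
  ext p
  have h1 : p ∈ J → p ∉ exr r b := fun hp hp' => h.rT (mem_exr hp' ▸ hJ hp)
  have h2 : p ∈ J → p ∉ S.image f := by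
    intro hp hp'
    obtain ⟨i, _, rfl⟩ := Finset.mem_image.1 hp'
    exact h.fT i (hJ hp)
  unfold PP
  simp only [Finset.mem_symmDiff, Finset.mem_union]
  tauto

theorem symm_subT {U J T : Finset ℕ} (hU : U ⊆ T) (hJ : J ⊆ T) : U ∆ J ⊆ T := by
  intro p hp
  rcases Finset.mem_symmDiff.1 hp with h | h
  · exact hU h.1
  · exact hJ h.1

/-- the twist over `ℚ` -/
theorem CfgF.tt (h : CfgF G f c T r) {U : Finset ℕ} (hU : U ⊆ T) (b : Bool) (S : Finset (Fin m)) :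
    TT ((∏ p ∈ U, p) * ((if b then r else 1) * ∏ i ∈ S, f i)) ↔
      TT (∏ p ∈ U, p) ∧ Ker G (c + if b then 1 else 0) S := by
  rw [← h.prod hU b S, tt_gd (h.p4 hU b S), tt_gd (fun p hp => h.tprime p (hU hp)), h.gd hU]

/-- the twist over the fields -/
theorem CfgF.field (h : CfgF G f c T r) {U J : Finset ℕ} (hU : U ⊆ T) (hJ : J ⊆ T)
    (hUJ : ∀ V, V ⊆ J → TT (∏ p ∈ U ∆ V, p)) (b : Bool) (S : Finset (Fin m))
    (hS : Ker G (c + if b then 1 else 0) S) (K : IntermediateField ℚ ℂ) (hK : K ≤ KT (J : Set ℕ))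
    [NumberField K] (D : ℕ) (hD : D = (∏ p ∈ U, p) * ((if b then r else 1) * ∏ i ∈ S, f i)) :
    Finite (tc D K).toAffine.Point ∧
    (∃ G : ℂ → ℂ, Differentiable ℂ G ∧ (∀ s : ℂ, 3 / 2 < s.re →
      HasProd (Pool.Agent.U80.MQ.factor (K := K) (Pool.Agent.U80.MQ.A D)
        (Pool.Agent.U80.MQ.B D) s) (G s)) ∧ G 1 ≠ 0) ∧
    ∀ (k : ℕ) (x : Sha (tc D K)), (2 ^ k : ℕ) • x = 0 → Module.finrank ℚ K • x = 0 := by
  rw [hD, ← h.prod hU b S]
  refine fieldsJ (h.p4 hU b S) (fun p hp => h.tprime p (hJ hp)) (fun V hV => ?_) K hK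
  have h1 := symm_subT hU (hV.trans hJ)
  rw [h.symm_diff U (hV.trans hJ), h.gd h1]
  exact ⟨(tt_gd (fun p hp => h.tprime p (h1 hp))).1 (hUJ V hV), hS⟩

end Pool.Agent.U974.TW
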