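import Mathlib
import Pool.Agent.U974.TR.Meas
import Pool.Agent.U974.LG.Arith
import Pool.Agent.U974.LG.Embed

/-! # Fixed constellations of primes of a class modulo `L` which realise all matrices of Legendre symbols -/

set_option autoImplicit false

namespace Pool.Agent.U974.TW

open Finset
open Pool.Agent.U974.LG
open Pool.Agent.U974.TR

section cls

variable {off : ℕ → ℕ} (hoff : StrictMono off) (h0 : off 0 = 0)

/-- the class of the index `i` -/
def cls (off : ℕ → ℕ) (i : ℕ) : ℕ := Nat.findGreatest (fun t => off t ≤ i) i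

include hoff h0 in
theorem cls_spec (i : ℕ) : off (cls off i) ≤ i ∧ i < off (cls off i + 1) := by
  constructor
  · have := Nat.findGreatest_spec (P := fun t => off t ≤ i) (n := i) (m := 0) (Nat.zero_le _) (by omega)
    exact this
  · by_contra hcon
    push Not at hcon
    have h1 : cls off i + 1 ≤ i := (hoff.le_apply).trans hcon
    have h2 := Nat.findGreatest_is_greatest (P := fun t => off t ≤ i) (n := i) (k := cls off i + 1)
      (Nat.lt_succ_self _) h1
    exact h2 hcon

include hoff h0 in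
theorem cls_eq {i t : ℕ} (h1 : off t ≤ i) (h2 : i < off (t + 1)) : cls off i = t := by
  obtain ⟨h3, h4⟩ := cls_spec hoff h0 i
  apply le_antisymm
  · by_contra hcon
    push Not at hcon
    have h5 : off (t + 1) ≤ off (cls off i) := hoff.monotone (by omega)
    omega
  · by_contra hcon
    push Not at hcon
    have h5 : off (cls off i + 1) ≤ off t := hoff.monotone (by omega)
    omega

include hoff h0 in
theorem cls_mono : Monotone (cls off) := by
  intro i j hij
  obtain ⟨h1, h2⟩ := cls_spec hoff h0 i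
  obtain ⟨h3, h4⟩ := cls_spec hoff h0 j
  by_contra hcon
  push Not at hcon
  have h5 : off (cls off j + 1) ≤ off (cls off i) := hoff.monotone (by omega)
  omega

end cls

open Classical in
/-- **Constellations of primes with all Legendre symbols prescribed.** -/
theorem patterns (m L b : ℕ) (hL : 0 < L) (hb : b.Coprime L) :
    ∃ (C : ℕ) (H : Finset ℕ) (A : Set ℕ), (∀ h ∈ H, h ≤ C) ∧ A.Infinite ∧
      (∀ n ∈ A, ∀ y ≤ C, ((n + y).Prime ↔ y ∈ H)) ∧ (∀ n ∈ A, ∀ h ∈ H, n + h ≡ b [MOD L]) ∧
      ∀ ε : Fin m → Fin m → ℤ, (∀ i j, ε i j = 1 ∨ ε i j = -1) →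
      ∃ h : Fin m → ℕ, StrictMono h ∧ (∀ i, h i ∈ H) ∧
        ∀ n ∈ A, ∀ i j, i < j → jacobiSym ((n + h j : ℕ) : ℤ) (n + h i) = ε i j := by
  obtain ⟨off, hoff, hoff0, Hc⟩ := classes
  obtain ⟨Q₀, hQ₀⟩ := embed_order m (1 / 800) (by norm_num)
  obtain ⟨Q, hQge, hQ⟩ := Nat.exists_infinite_primes (Q₀ + L + 4)
  have : Fact Q.Prime := ⟨hQ⟩
  obtain ⟨N, hN⟩ : ∃ N, N = Q - 1 := ⟨_, rfl⟩
  obtain ⟨K, hK⟩ : ∃ K, K = off N := ⟨_, rfl⟩
  have hNK : N ≤ K := by rw [hK]; exact hoff.le_apply
  have hK1 : 1 ≤ K := by omega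
  -- the moduli
  obtain ⟨d, hd⟩ : ∃ d, d = ∏ p ∈ L.primeFactors, p := ⟨_, rfl⟩
  have hdL : d ∣ L := by rw [hd]; exact Nat.prod_primeFactors_dvd L
  have hdsq : Squarefree d := by
    rw [hd]
    refine Finset.squarefree_prod_of_pairwise_isCoprime (fun i hi j hj hij => ?_)
      (fun i hi => (Nat.prime_of_mem_primeFactors hi).squarefree)
    simp only [← Nat.coprime_iff_isRelPrime]
    exact (Nat.coprime_primes (Nat.prime_of_mem_primeFactors hi) (Nat.prime_of_mem_primeFactors hj)).2 hij
  have hbd : b.Coprime d := Nat.Coprime.coprime_dvd_right hdL hb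
  obtain ⟨M, hM⟩ : ∃ M : ℕ, M = 2 * L * ∏ p ∈ (Finset.range (2 * K + 3)).filter (fun p => p.Prime ∧ p ≠ Q), p :=
    ⟨_, rfl⟩
  have hprod0 : 0 < ∏ p ∈ (Finset.range (2 * K + 3)).filter (fun p => p.Prime ∧ p ≠ Q), p :=
    Finset.prod_pos (fun p hp => (Finset.mem_filter.1 hp).2.1.pos)
  have hM2 : 2 ∣ M := by
    rw [hM]
    exact Dvd.dvd.mul_right (Dvd.intro _ rfl) _
  have hLM : L ∣ M := by
    rw [hM]
    exact Dvd.dvd.mul_right (Dvd.intro_left _ rfl) _
  have hM1 : 1 < M := by
    have h0 : 0 < M := by rw [hM]; positivity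
    have := Nat.le_of_dvd h0 hM2
    omega
  have hQM : Q.Coprime M := by
    rw [hM]
    refine Nat.Coprime.mul_right (Nat.Coprime.mul_right ?_ ?_) (Nat.Coprime.prod_right (fun p hp => ?_))
    · exact (Nat.coprime_primes hQ Nat.prime_two).2 (by omega)
    · rw [Nat.Prime.coprime_iff_not_dvd hQ]
      intro hdv
      have := Nat.le_of_dvd hL hdv
      omega
    · have := (Finset.mem_filter.1 hp).2
      exact (Nat.coprime_primes hQ this.1).2 this.2.symm
  have hMK : ∀ p : ℕ, p.Prime → p ≤ 2 * K + 2 → p ≠ Q → p ∣ M := by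
    intro p hp hpK hpQ
    rw [hM]
    exact Dvd.dvd.mul_left (Finset.dvd_prod_of_mem _ (Finset.mem_filter.2 ⟨Finset.mem_range.2 (by omega), hp, hpQ⟩)) _
  obtain ⟨r, hr⟩ : ∃ r : ℕ → ℕ, r = fun i => min (cls off i) (N - 1) + 1 := ⟨_, rfl⟩
  have hrQ : ∀ j, ¬ Q ∣ r j := by
    intro j hdv
    simp only [hr] at hdv
    have h1 := Nat.le_of_dvd (Nat.succ_pos _) hdv
    have h2 : min (cls off j) (N - 1) ≤ N - 1 := min_le_right _ _
    omega
  obtain ⟨t, D, hD, htmono, htM, hadm, hT⟩ := arith (Q := Q) (M := M) (K := K) (d := d) (b := b)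
    (by omega) hM2 hM1 hQM hMK hK1 hdsq (hdL.trans hLM) hbd r hrQ
  obtain ⟨h₀, hcop, hmod, hsym⟩ := hT 1 one_ne_zero
  simp only [one_pow, one_mul] at hcop hmod hsym
  have hD0 : 0 < D := Nat.pos_of_ne_zero hD.ne_zero
  have htL : ∀ j, j < K → t j ≡ 0 [MOD L] := fun j hj => (htM j hj).of_dvd hLM
  -- the base point
  have hgcd : h₀ ≡ b [MOD Nat.gcd D L] := by
    have h1 : Nat.gcd D L ∣ d := by
      have h2 : Squarefree (Nat.gcd D L) := hD.squarefree_of_dvd (Nat.gcd_dvd_left _ _)
      rw [hd, ← Nat.prod_primeFactors_of_squarefree h2]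
      exact Finset.prod_dvd_prod_of_subset _ _ _ (Nat.primeFactors_mono (Nat.gcd_dvd_right _ _) hL.ne')
    have h2 : h₀ + t 0 ≡ b [MOD d] := hmod h₀ rfl 0 hK1
    have h3 : h₀ + t 0 ≡ h₀ + 0 [MOD d] := ((htL 0 hK1).of_dvd hdL).add_left h₀
    rw [add_zero] at h3
    exact (h3.symm.trans h2).of_dvd h1
  obtain ⟨h₁, hh1, hh2⟩ := Nat.chineseRemainder' hgcd
  have hc1 : ∀ j, j < K → (h₁ + t j).Coprime (D * L) := by
    intro j hj
    refine Nat.Coprime.mul_right ?_ ?_
    · have h1 : h₁ + t j ≡ h₀ + t j [MOD D] := hh1.add_right _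
      have h2 : Nat.gcd (h₁ + t j) D = Nat.gcd (h₀ + t j) D := h1.gcd_eq
      unfold Nat.Coprime
      rw [h2]
      exact hcop j hj
    · have h1 : h₁ + t j ≡ b + 0 [MOD L] := hh2.add (htL j hj)
      have h2 : Nat.gcd (h₁ + t j) L = Nat.gcd (b + 0) L := h1.gcd_eq
      unfold Nat.Coprime
      rw [h2]
      exact hb
  -- the forms
  obtain ⟨a, ha⟩ : ∃ a : ℕ, a = D * L := ⟨_, rfl⟩
  have ha0 : 0 < a := by rw [ha]; positivity
  obtain ⟨AA, hAA⟩ : ∃ AA : ℕ → ℕ, AA = fun i => if i < K then a else a * (2 * (i + 1)).factorial := ⟨_, rfl⟩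
  obtain ⟨BB, hBB⟩ : ∃ BB : ℕ → ℕ, BB = fun i => if i < K then h₁ + t i else 1 := ⟨_, rfl⟩
  have hAAlt : ∀ i, i < K → AA i = a := fun i hi => by rw [hAA]; simp [hi]
  have hAAge : ∀ i, K ≤ i → AA i = a * (2 * (i + 1)).factorial := fun i hi => by
    rw [hAA]; simp [not_lt.2 hi]
  have hBBlt : ∀ i, i < K → BB i = h₁ + t i := fun i hi => by rw [hBB]; simp [hi]
  have hBBge : ∀ i, K ≤ i → BB i = 1 := fun i hi => by rw [hBB]; simp [not_lt.2 hi]
  have hAAgt : ∀ i, K ≤ i → a < AA i := by
    intro i hi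
    rw [hAAge i hi]
    have h1 : 2 * (i + 1) ≤ (2 * (i + 1)).factorial := Nat.self_le_factorial _
    have h2 : a * 2 ≤ a * (2 * (i + 1)).factorial := Nat.mul_le_mul_left _ (by omega)
    omega
  have htinj : ∀ i j, i < K → j < K → t i = t j → i = j := by
    intro i j hi hj hij
    rcases lt_trichotomy i j with h | h | h
    · exact absurd hij (htmono i j h hj).ne
    · exact h
    · exact absurd hij.symm (htmono j i h hi).ne
  obtain ⟨I, hPI, hI⟩ := Hc (fun _ => Finset.range N) (fun _ => ⟨0, Finset.mem_range.2 (by omega)⟩)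
    (fun i => (AA i : ℤ)) (fun i => (BB i : ℤ)) (by
      intro i
      have h1 : 0 < AA i := by
        rcases lt_or_ge i K with h | h
        · rw [hAAlt i h]; exact ha0
        · have := hAAgt i h
          omega
      exact_mod_cast h1) (by
      intro i
      rw [Nat.isCoprime_iff_coprime]
      rcases lt_or_ge i K with h | h
      · rw [hAAlt i h, hBBlt i h, ha]
        exact (hc1 i h).symm
      · rw [hBBge i h]
        exact Nat.coprime_one_right _) (by
      intro i j hij
      simp only [Prod.mk.injEq, Nat.cast_inj] at hij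
      obtain ⟨h1, h2⟩ := hij
      rcases lt_or_ge i K with hi | hi
      · rcases lt_or_ge j K with hj | hj
        · rw [hBBlt i hi, hBBlt j hj] at h2
          exact htinj i j hi hj (by omega)
        · rw [hAAlt i hi] at h1
          have := hAAgt j hj
          omega
      · rcases lt_or_ge j K with hj | hj
        · rw [hAAlt j hj] at h1
          have := hAAgt i hi
          omega
        · rw [hAAge i hi, hAAge j hj] at h1
          have h3 := Nat.eq_of_mul_eq_mul_left ha0 h1
          have h4 : 2 * (i + 1) = 2 * (j + 1) := by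
            rcases lt_trichotomy (2 * (i + 1)) (2 * (j + 1)) with h | h | h
            · exact absurd h3 (Nat.factorial_lt_of_lt (by omega) h).ne
            · exact h
            · exact absurd h3.symm (Nat.factorial_lt_of_lt (by omega) h).ne
          omega) (by
      intro p hp
      have : Fact p.Prime := ⟨hp⟩
      by_cases hpa : p ∣ a
      · refine ⟨0, fun i hdv => ?_⟩
        have hdv' : p ∣ BB i := by
          have : (p : ℤ) ∣ (BB i : ℤ) := by simpa using hdv
          exact_mod_cast this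
        rcases lt_or_ge i K with h | h
        · rw [hBBlt i h] at hdv'
          have h1 := Nat.dvd_gcd hdv' (ha ▸ hpa)
          rw [hc1 i h] at h1
          exact hp.one_lt.ne' (Nat.eq_one_of_dvd_one h1)
        · rw [hBBge i h] at hdv'
          exact hp.one_lt.ne' (Nat.eq_one_of_dvd_one hdv')
      · have hau : (a : ZMod p) ≠ 0 := by
          rw [Ne, ZMod.natCast_eq_zero_iff]
          exact hpa
        -- the classes to be avoided
        have hex : ∃ z : ZMod p, ∀ i, i < K ∨ 2 * (i + 1) < p → (AA i : ZMod p) * z + (BB i : ZMod p) ≠ 0 := by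
          by_cases hpK : p ≤ 2 * K + 2
          · obtain ⟨v, hv⟩ := hadm p hp
            refine ⟨(a : ZMod p)⁻¹ * ((v : ZMod p) - h₁), fun i hi => ?_⟩
            have hi' : i < K := by omega
            rw [hAAlt i hi', hBBlt i hi', ← mul_assoc, mul_inv_cancel₀ hau]
            intro h1
            apply hv i hi'
            rw [← ZMod.natCast_eq_zero_iff]
            push_cast at h1 ⊢
            rw [← h1]
            ring
          · push Not at hpK
            let B : Finset (ZMod p) := (Finset.range (p / 2)).image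
              (fun i : ℕ => -((BB i : ZMod p)) * (AA i : ZMod p)⁻¹)
            have hB : B.card < (Finset.univ : Finset (ZMod p)).card := by
              refine lt_of_le_of_lt Finset.card_image_le ?_
              rw [Finset.card_range, Finset.card_univ, ZMod.card]
              have := hp.two_le
              omega
            obtain ⟨z, _, hz⟩ := Finset.exists_mem_notMem_of_card_lt_card hB
            refine ⟨z, fun i hi h1 => hz ?_⟩
            have hi' : i < p / 2 := by omega
            by_cases hA0 : (AA i : ZMod p) = 0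
            · exfalso
              have hi2 : K ≤ i := by
                by_contra hcon
                push Not at hcon
                rw [hAAlt i hcon] at hA0
                exact hau hA0
              rw [hA0, zero_mul, zero_add, hBBge i hi2] at h1
              simp at h1
            · refine Finset.mem_image.2 ⟨i, Finset.mem_range.2 hi', ?_⟩
              have h2 : (AA i : ZMod p) * z = -(BB i : ZMod p) := eq_neg_of_add_eq_zero_left h1
              rw [← h2, mul_comm (AA i : ZMod p) z, mul_assoc, mul_inv_cancel₀ hA0, mul_one]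
        obtain ⟨z, hz⟩ := hex
        refine ⟨z.val, fun i hdv => ?_⟩
        have hdv' : (AA i : ZMod p) * z + (BB i : ZMod p) = 0 := by
          have h1 := (ZMod.intCast_zmod_eq_zero_iff_dvd _ p).2 hdv
          push_cast at h1
          rw [ZMod.natCast_zmod_val] at h1
          exact h1
        by_cases hi : i < K ∨ 2 * (i + 1) < p
        · exact hz i hi hdv'
        · push Not at hi
          obtain ⟨hi1, hi2⟩ := hi
          have h1 : (AA i : ZMod p) = 0 := by
            rw [ZMod.natCast_eq_zero_iff, hAAge i hi1]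
            exact Dvd.dvd.mul_left (Nat.dvd_factorial hp.pos hi2) _
          rw [h1, zero_mul, zero_add, hBBge i hi1] at hdv'
          simp at hdv')
  -- the hits
  have hE : (Finset.range N).card ≤ 800 * ((Finset.range N).filter (fun t => hits off I t)).card := by
    obtain ⟨j, hj⟩ := hPI.exists
    exact hj
  let H : Finset ℕ := ((Finset.range K).filter (fun i => i ∈ I)).image t
  obtain ⟨C, hC⟩ : ∃ C : ℕ, ∀ i, i < K → t i ≤ C :=
    ⟨(Finset.range K).sup t, fun i hi => Finset.le_sup (f := t) (Finset.mem_range.2 hi)⟩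
  let T : Finset (ℤ × ℤ) := (Finset.range (C + 1)).image (fun y : ℕ => ((a : ℤ), ((h₁ + y : ℕ) : ℤ)))
  have hTinf := hI T (by
    intro f hf
    obtain ⟨y, _, rfl⟩ := Finset.mem_image.1 hf
    have h1 : (1 : ℤ) ≤ (a : ℤ) := by exact_mod_cast ha0
    exact h1)
  let X : Set ℕ := {x : ℕ | ∀ f ∈ T, (Nat.Prime (f.1 * x + f.2).toNat ↔ ∃ i ∈ I, f = ((AA i : ℤ), (BB i : ℤ)))} \
    {x | x ≤ M}
  have hXinf : X.Infinite := hTinf.sdiff (Set.finite_le_nat M)
  let A : Set ℕ := (fun x => a * x + h₁) '' X
  have hAinf : A.Infinite := by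
    refine hXinf.image ?_
    intro x _ y _ hxy
    simp only at hxy
    exact Nat.eq_of_mul_eq_mul_left ha0 (by omega)
  have hprime : ∀ n ∈ A, ∀ y ≤ C, ((n + y).Prime ↔ y ∈ H) := by
    rintro n ⟨x, hx, rfl⟩ y hy
    have h1 := hx.1 ((a : ℤ), ((h₁ + y : ℕ) : ℤ)) (Finset.mem_image.2 ⟨y, Finset.mem_range.2 (by omega), rfl⟩)
    have h2 : ((a : ℤ) * x + ((h₁ + y : ℕ) : ℤ)).toNat = a * x + h₁ + y := by
      have : (a : ℤ) * x + ((h₁ + y : ℕ) : ℤ) = ((a * x + h₁ + y : ℕ) : ℤ) := by push_cast; ring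
      rw [this, Int.toNat_natCast]
    simp only [h2] at h1
    simp only
    rw [h1]
    constructor
    · rintro ⟨i, hi, hf⟩
      simp only [Prod.mk.injEq, Nat.cast_inj] at hf
      obtain ⟨h3, h4⟩ := hf
      have hiK : i < K := by
        by_contra hcon
        push Not at hcon
        have := hAAgt i hcon
        omega
      rw [hBBlt i hiK] at h4
      exact Finset.mem_image.2 ⟨i, Finset.mem_filter.2 ⟨Finset.mem_range.2 hiK, hi⟩, by omega⟩
    · intro hyH
      obtain ⟨i, hi, rfl⟩ := Finset.mem_image.1 hyH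
      obtain ⟨hi1, hi2⟩ := Finset.mem_filter.1 hi
      have hiK := Finset.mem_range.1 hi1
      refine ⟨i, hi2, ?_⟩
      rw [hAAlt i hiK, hBBlt i hiK]
  have hnmod : ∀ n ∈ A, n ≡ h₁ [MOD a] := by
    rintro n ⟨x, hx, rfl⟩
    simp only
    have h1 : a * x + h₁ ≡ 0 + h₁ [MOD a] := (Nat.modEq_zero_iff_dvd.2 (Dvd.intro _ rfl)).add_right _
    rwa [zero_add] at h1
  refine ⟨C, H, A, ?_, hAinf, hprime, ?_, ?_⟩
  · intro h hh
    obtain ⟨i, hi, rfl⟩ := Finset.mem_image.1 hh
    exact hC i (Finset.mem_range.1 (Finset.mem_filter.1 hi).1)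
  · intro n hn h hh
    obtain ⟨i, hi, rfl⟩ := Finset.mem_image.1 hh
    have hiK := Finset.mem_range.1 (Finset.mem_filter.1 hi).1
    have h1 : n ≡ h₁ [MOD L] := (hnmod n hn).of_dvd (ha ▸ Dvd.intro_left _ rfl)
    have h2 : n + t i ≡ h₁ + 0 [MOD L] := h1.add (htL i hiK)
    rw [add_zero] at h2
    exact h2.trans hh2
  · intro ε hε
    let E : Finset (Fin (Q - 1)) := Finset.univ.filter (fun e => hits off I (e : ℕ))
    have hEc : (1 / 800 : ℝ) * ((Q - 1 : ℕ) : ℝ) ≤ E.card := by
      have h1 : ((Finset.range N).filter (fun t => hits off I t)).card ≤ E.card := by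
        have h2 : ((Finset.range N).filter (fun t => hits off I t)) ⊆ E.image (fun e : Fin (Q - 1) => (e : ℕ)) := by
          intro t ht
          obtain ⟨h3, h4⟩ := Finset.mem_filter.1 ht
          have h5 := Finset.mem_range.1 h3
          exact Finset.mem_image.2 ⟨⟨t, by omega⟩, Finset.mem_filter.2 ⟨Finset.mem_univ _, h4⟩, rfl⟩
        exact (Finset.card_le_card h2).trans Finset.card_image_le
      rw [Finset.card_range] at hE
      have h2 : N ≤ 800 * E.card := hE.trans (Nat.mul_le_mul_left _ h1)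
      have h3 : (N : ℝ) ≤ 800 * E.card := by exact_mod_cast h2
      have h4 : ((Q - 1 : ℕ) : ℝ) = (N : ℝ) := by rw [hN]
      linarith
    obtain ⟨e, he, heE, heε⟩ := hQ₀ Q (by omega) E hEc ε hε
    have h1 : ∀ i, ∃ k, off (e i) ≤ k ∧ k < off (e i + 1) ∧ k ∈ I := by
      intro i
      obtain ⟨k, hk, hkI⟩ := (Finset.mem_filter.1 (heE i)).2
      rw [Finset.mem_Ico] at hk
      exact ⟨k, hk.1, hk.2, hkI⟩
    choose k hk1 hk2 hkI using h1
    have hkK : ∀ i, k i < K := by
      intro i
      have h2 : off ((e i : ℕ) + 1) ≤ off N := hoff.monotone (by have := (e i).2; omega)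
      rw [hK]
      exact lt_of_lt_of_le (hk2 i) h2
    have hcls : ∀ i, cls off (k i) = e i := fun i => cls_eq hoff hoff0 (hk1 i) (hk2 i)
    have hrk : ∀ i, r (k i) = e i + 1 := by
      intro i
      rw [hr]
      simp only
      rw [hcls i, min_eq_left (by have := (e i).2; omega)]
    have hklt : ∀ i i', i < i' → k i < k i' := by
      intro i i' hii
      by_contra hcon
      push Not at hcon
      have h2 := cls_mono hoff hoff0 hcon
      rw [hcls, hcls] at h2
      exact absurd h2 (not_le.2 (Fin.lt_def.1 (he hii)))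
    refine ⟨fun i => t (k i), fun i i' hii => htmono _ _ (hklt i i' hii) (hkK i'), fun i => ?_, ?_⟩
    · exact Finset.mem_image.2 ⟨k i, Finset.mem_filter.2 ⟨Finset.mem_range.2 (hkK i), hkI i⟩, rfl⟩
    · intro n hn i i' hii
      have h2 : ¬ r (k i) ≡ r (k i') [MOD Q] := by
        intro h3
        rw [hrk, hrk] at h3
        have h4 := (e i).2
        have h5 := (e i').2
        unfold Nat.ModEq at h3
        rw [Nat.mod_eq_of_lt (by omega), Nat.mod_eq_of_lt (by omega)] at h3
        have h6 := Fin.lt_def.1 (he hii)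
        omega
      have h3 : n ≡ h₀ [MOD D] := ((hnmod n hn).of_dvd (ha ▸ Dvd.intro _ rfl)).trans hh1
      have h4 : M < n := by
        obtain ⟨x, hx, rfl⟩ := hn
        have h5 : ¬ x ≤ M := hx.2
        simp only
        have h6 : x ≤ a * x := Nat.le_mul_of_pos_left _ ha0
        omega
      have h5 : (n + t (k i)).Prime := by
        rw [hprime n hn _ (hC _ (hkK i))]
        exact Finset.mem_image.2 ⟨k i, Finset.mem_filter.2 ⟨Finset.mem_range.2 (hkK i), hkI i⟩, rfl⟩
      have h6 := hsym n h3 h4 (by omega) (k i) (k i') (hklt i i' hii) (hkK i') h5 h2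
      rw [h6, ← heε i i' hii]
      congr 1
      rw [hrk, hrk]

end Pool.Agent.U974.TW
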