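import Mathlib

/-! # Kernels of the matrices `g + Laplacian` of induced subgraphs over the field with two elements -/

set_option autoImplicit false

namespace Pool.Agent.U974.TW

open Finset Matrix

open scoped Classical

/-- the kernel of `g + Laplacian` of the subgraph induced on `S` is zero -/
def Ker {m : ℕ} (G : SimpleGraph (Fin m)) (g : ZMod 2) (S : Finset (Fin m)) : Prop :=
  ∀ y : Fin m → ZMod 2, (∀ i ∈ S, ∑ j ∈ S, (if G.Adj i j then 1 else 0) * (y j + y i) + g * y i = 0) →
    ∀ i ∈ S, y i = 0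

theorem ker_zero {m : ℕ} (G : SimpleGraph (Fin m)) {S : Finset (Fin m)} (hS : S.Nonempty) : ¬ Ker G 0 S := by
  intro h
  obtain ⟨i, hi⟩ := hS
  have h1 := h (fun _ => 1) (by
    intro i _
    have h2 : (1 : ZMod 2) + 1 = 0 := by decide
    simp only [h2, mul_zero, Finset.sum_const_zero, zero_mul, add_zero]) i hi
  exact absurd h1 (by decide)

theorem z2_neg (x : ZMod 2) : -x = x := by
  revert x
  decide

theorem lap_apply {V : Type} [Fintype V] [DecidableEq V] (G : SimpleGraph V) [DecidableRel G.Adj]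
    (v : V → ZMod 2) (i : V) :
    (((1 : Matrix V V (ZMod 2)) + G.lapMatrix (ZMod 2)) *ᵥ v) i =
      ∑ j : V, (if G.Adj i j then 1 else 0) * (v j + v i) + 1 * v i := by
  rw [add_mulVec, Pi.add_apply, one_mulVec, SimpleGraph.lapMatrix_mulVec_apply,
    SimpleGraph.degree_eq_sum_if_adj, sub_eq_add_neg, z2_neg]
  have h1 : ∑ u ∈ G.neighborFinset i, v u = ∑ j : V, (if G.Adj i j then 1 else 0) * v j := by
    rw [SimpleGraph.neighborFinset_eq_filter, Finset.sum_filter]
    refine Finset.sum_congr rfl fun j _ => ?_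
    split_ifs <;> simp
  rw [h1, Finset.sum_mul, ← Finset.sum_add_distrib]
  rw [add_comm, one_mul]
  congr 1
  refine Finset.sum_congr rfl fun j _ => ?_
  ring

/-- the matrix `1 + Laplacian` of the subgraph of `G` induced on `S`, over the field with two elements, is
nonsingular -/
def Nonsing {m : ℕ} (G : SimpleGraph (Fin m)) (S : Finset (Fin m)) : Prop :=
  ((1 : Matrix (S : Set (Fin m)) (S : Set (Fin m)) (ZMod 2)) +
    (G.induce (S : Set (Fin m))).lapMatrix (ZMod 2)).det ≠ 0

theorem ker_iff {m : ℕ} (G : SimpleGraph (Fin m)) (S : Finset (Fin m)) : Ker G 1 S ↔ Nonsing G S := by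
  unfold Nonsing
  rw [Ne, ← Matrix.exists_mulVec_eq_zero_iff]
  have hs : ∀ (y : Fin m → ZMod 2) (i : (S : Set (Fin m))),
      (((1 : Matrix (S : Set (Fin m)) (S : Set (Fin m)) (ZMod 2)) +
        (G.induce (S : Set (Fin m))).lapMatrix (ZMod 2)) *ᵥ (fun j : (S : Set (Fin m)) => y j)) i =
      ∑ j ∈ S, (if G.Adj i j then 1 else 0) * (y j + y i) + 1 * y i := by
    intro y i
    rw [lap_apply]
    congr 1
    rw [Finset.sum_subtype S (p := (· ∈ (S : Set (Fin m)))) (fun x => Finset.mem_coe.symm)]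
    refine Finset.sum_congr rfl fun j _ => ?_
    simp only [SimpleGraph.comap_adj, Function.Embedding.subtype_apply]
  constructor
  · rintro h ⟨v, hv, hv2⟩
    apply hv
    obtain ⟨y, hy⟩ : ∃ y : Fin m → ZMod 2, v = fun j : (S : Set (Fin m)) => y j := by
      refine ⟨fun j => if hj : j ∈ (S : Set (Fin m)) then v ⟨j, hj⟩ else 0, ?_⟩
      funext j
      simp only
      rw [dif_pos j.2]
    funext i
    rw [hy] at hv2 ⊢
    refine h y (fun k hk => ?_) i (Finset.mem_coe.1 i.2)
    have h1 := congrFun hv2 ⟨k, Finset.mem_coe.2 hk⟩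
    rw [hs y ⟨k, Finset.mem_coe.2 hk⟩] at h1
    exact h1
  · intro h y hy i hi
    by_contra hcon
    apply h
    refine ⟨fun j : (S : Set (Fin m)) => y j, ?_, ?_⟩
    · intro h1
      exact hcon (congrFun h1 ⟨i, Finset.mem_coe.2 hi⟩)
    · funext k
      rw [hs y k]
      exact hy k (Finset.mem_coe.1 k.2)

/-- the empty graph -/
theorem nonsing_bot {m : ℕ} (S : Finset (Fin m)) : Nonsing (⊥ : SimpleGraph (Fin m)) S := by
  rw [← ker_iff]
  intro y hy i hi
  have h1 := hy i hi
  simpa using h1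

end Pool.Agent.U974.TW
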