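import Mathlib
import Pool.Agent.U974.TW.Eng

/-! # Clusters of primes with all patterns of Legendre symbols on which a further property is constant -/

set_option autoImplicit false

namespace Pool.Agent.U974.TW

open Finset

/-- the lexicographic product of `G₁` (outside) and `G₀` (inside) -/
def lexE (m : ℕ) (G₁ G₀ : Fin m → Fin m → ℤ) (a b : Fin (m * m)) : ℤ :=
  if (finProdFinEquiv.symm a).1 = (finProdFinEquiv.symm b).1 then
    G₀ (finProdFinEquiv.symm a).2 (finProdFinEquiv.symm b).2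
  else G₁ (finProdFinEquiv.symm a).1 (finProdFinEquiv.symm b).1

/-- a colouring of the points of the product with two colours has a copy of `G₀` in the first or a copy of `G₁`
in the second colour -/
theorem mono_copy (m : ℕ) (G₁ G₀ : Fin m → Fin m → ℤ) (c : Fin (m * m) → Prop) :
    ∃ g : Fin m → Fin (m * m), StrictMono g ∧
      (((∀ i, c (g i)) ∧ ∀ i j, i < j → lexE m G₁ G₀ (g i) (g j) = G₀ i j) ∨
      ((∀ i, ¬ c (g i)) ∧ ∀ i j, i < j → lexE m G₁ G₀ (g i) (g j) = G₁ i j)) := by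
  by_cases h : ∃ i, ∀ u, c (finProdFinEquiv (i, u))
  · obtain ⟨i, hi⟩ := h
    refine ⟨fun u => finProdFinEquiv (i, u), ?_, Or.inl ⟨hi, ?_⟩⟩
    · intro u v huv
      rw [Fin.lt_def, finProdFinEquiv_apply_val, finProdFinEquiv_apply_val]
      have := Fin.lt_def.1 huv
      simp only
      omega
    · intro u v _
      unfold lexE
      simp only [Equiv.symm_apply_apply, if_true]
  · push Not at h
    choose u hu using h
    refine ⟨fun i => finProdFinEquiv (i, u i), ?_, Or.inr ⟨hu, ?_⟩⟩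
    · intro i j hij
      rw [Fin.lt_def, finProdFinEquiv_apply_val, finProdFinEquiv_apply_val]
      have h1 := Fin.lt_def.1 hij
      have h2 := (u i).2
      simp only
      have h3 : m * (i : ℕ) + m ≤ m * (j : ℕ) := by
        have : m * ((i : ℕ) + 1) ≤ m * (j : ℕ) := Nat.mul_le_mul_left _ h1
        linarith
      omega
    · intro i j hij
      unfold lexE
      simp only [Equiv.symm_apply_apply]
      rw [if_neg hij.ne]

/-- the pattern `G` of signs occurs between the primes `n + h i`, `n ∈ A`, `h i ∈ H`, and these primes have the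
property `θ` -/
def Occurs {m : ℕ} (A : Set ℕ) (H : Finset ℕ) (θ : ℕ → Prop) (G : Fin m → Fin m → ℤ) : Prop :=
  ∃ h : Fin m → ℕ, StrictMono h ∧ (∀ i, h i ∈ H) ∧
    (∀ n ∈ A, ∀ i j, i < j → jacobiSym ((n + h j : ℕ) : ℤ) (n + h i) = G i j) ∧ ∀ n ∈ A, ∀ i, θ (n + h i)

/-- **Constellations of primes in which all patterns of Legendre symbols occur, on primes with a given property
or, for all patterns, on primes without this property.** -/
theorem clusters (m L b : ℕ) (hL : 0 < L) (hb : b.Coprime L) (θ : ℕ → Prop) :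
    ∃ (C : ℕ) (H : Finset ℕ) (A : Set ℕ), (∀ x ∈ H, x ≤ C) ∧
      A.Infinite ∧ (∀ n ∈ A, ∀ y ≤ C, ((n + y).Prime ↔ y ∈ H)) ∧ (∀ n ∈ A, ∀ x ∈ H, n + x ≡ b [MOD L]) ∧
      ((∀ G : Fin m → Fin m → ℤ, (∀ i j, G i j = 1 ∨ G i j = -1) → Occurs A H θ G) ∨
        ∀ G : Fin m → Fin m → ℤ, (∀ i j, G i j = 1 ∨ G i j = -1) → Occurs A H (fun p => ¬ θ p) G) := by
  classical
  obtain ⟨C, H, A, hC, hA, hp, hm, hε⟩ := patterns (m * m) L b hL hb
  -- one colouring for infinitely many `n`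
  let col : ℕ → (Fin (C + 1) → Bool) := fun n y => decide (θ (n + y))
  obtain ⟨c, hc⟩ : ∃ c : Fin (C + 1) → Bool, (A ∩ {n | col n = c}).Infinite := by
    by_contra hcon
    push Not at hcon
    apply hA
    have h4 : A ⊆ ⋃ c : Fin (C + 1) → Bool, A ∩ {n | col n = c} := by
      intro n hn
      exact Set.mem_iUnion.2 ⟨col n, hn, rfl⟩
    refine (Set.finite_iUnion fun c => ?_).subset h4
    exact hcon c
  let d : ℕ → Prop := fun y => ∃ hy : y < C + 1, c ⟨y, hy⟩ = true
  have hd : ∀ n ∈ A ∩ {n | col n = c}, ∀ y ≤ C, (θ (n + y) ↔ d y) := by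
    rintro n ⟨_, hn⟩ y hy
    have h4 := congrFun hn ⟨y, Nat.lt_succ_of_le hy⟩
    constructor
    · intro h5
      exact ⟨Nat.lt_succ_of_le hy, by rw [← h4]; exact decide_eq_true h5⟩
    · rintro ⟨_, h5⟩
      rw [h5] at h4
      exact of_decide_eq_true h4
  refine ⟨C, H, A ∩ {n | col n = c}, hC, hc, fun n hn => hp n hn.1, fun n hn => hm n hn.1, ?_⟩
  by_contra hcon
  rw [not_or] at hcon
  obtain ⟨hcon1, hcon2⟩ := hcon
  push Not at hcon1 hcon2
  obtain ⟨G₀, hG₀, hno₀⟩ := hcon1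
  obtain ⟨G₁, hG₁, hno₁⟩ := hcon2
  obtain ⟨h', h1, h2, h3⟩ := hε (lexE m G₁ G₀) (by
    intro a b
    unfold lexE
    split_ifs
    · exact hG₀ _ _
    · exact hG₁ _ _)
  obtain ⟨g, hg1, hg2 | hg2⟩ := mono_copy m G₁ G₀ (fun a => d (h' a))
  · apply hno₀
    refine ⟨fun i => h' (g i), h1.comp hg1, fun i => h2 _, fun n hn i j hij => ?_, fun n hn i => ?_⟩
    · rw [h3 n hn.1 (g i) (g j) (hg1 hij), hg2.2 i j hij]
    · exact (hd n hn _ (hC _ (h2 _))).2 (hg2.1 i)
  · apply hno₁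
    refine ⟨fun i => h' (g i), h1.comp hg1, fun i => h2 _, fun n hn i j hij => ?_, fun n hn i => ?_⟩
    · rw [h3 n hn.1 (g i) (g j) (hg1 hij), hg2.2 i j hij]
    · intro h4
      exact hg2.1 i ((hd n hn _ (hC _ (h2 _))).1 h4)

end Pool.Agent.U974.TW
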