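import Mathlib
import Pool.Agent.U974.TW.Mono
import Pool.Agent.U974.TW.Graph
import Pool.Agent.R413.SQ.Cor

/-! # Twists of `X_0(49)` by the products of the primes of bounded clusters -/

set_option autoImplicit false

namespace Pool.Agent.U974.TW

open Finset
open Pool.Agent.R413.SQ
open Pool.Agent.Results.MP_4a9ea6_nt.TwoPartTwistsX49 (Adm)
open Pool.Agent.Y703.CQ (nr)
open Pool.Agent.R413.SQ.BOX (nr_self nr_symm)


open scoped Classical

/-- primes with the symbols of a graph -/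
structure Cfg {m : ℕ} (G : SimpleGraph (Fin m)) (f : Fin m → ℕ) (c : ZMod 2) : Prop where
  inj : Function.Injective f
  prime : ∀ i, (f i).Prime
  four : ∀ i, f i % 4 = 1
  seven : ∀ i, f i % 7 = 1 ∨ f i % 7 = 2 ∨ f i % 7 = 4
  five : ∀ i, f i % 5 = 2 ∨ f i % 5 = 3
  sym : ∀ i j, i < j → jacobiSym ((f j : ℕ) : ℤ) (f i) = if G.Adj i j then -1 else 1
  nfour : ∀ i, Pool.Agent.Y698.SG.n4 (f i) = c

variable {m : ℕ} {G : SimpleGraph (Fin m)} {f : Fin m → ℕ} {c : ZMod 2}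

theorem Cfg.nr_lt (h : Cfg G f c) {i j : Fin m} (hij : i < j) :
    nr (f i) (f j) = if G.Adj i j then 1 else 0 := by
  have : Fact (f i).Prime := ⟨h.prime i⟩
  have h1 := h.sym i j hij
  rw [← jacobiSym.legendreSym.to_jacobiSym] at h1
  have h2 : ((f j : ℕ) : ZMod (f i)) ≠ 0 := by
    rw [Ne, ZMod.natCast_eq_zero_iff]
    intro hd
    exact hij.ne (h.inj ((Nat.prime_dvd_prime_iff_eq (h.prime i) (h.prime j)).1 hd))
  have h2' : (((f j : ℕ) : ℤ) : ZMod (f i)) ≠ 0 := by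
    rw [Int.cast_natCast]
    exact h2
  have h3 := legendreSym.eq_one_iff (f i) h2'
  rw [Int.cast_natCast] at h3
  unfold Pool.Agent.Y703.CQ.nr
  by_cases hG : G.Adj i j
  · rw [if_pos hG] at h1 ⊢
    rw [if_neg]
    intro h4
    have h5 := h3.2 h4
    rw [h1] at h5
    exact absurd h5 (by norm_num)
  · rw [if_neg hG] at h1 ⊢
    rw [if_pos (h3.1 h1)]

theorem Cfg.ne2 (h : Cfg G f c) (i : Fin m) : f i ≠ 2 := by
  have := h.four i
  omega

theorem Cfg.ne5 (h : Cfg G f c) (i : Fin m) : f i ≠ 5 := by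
  have := h.five i
  omega

theorem Cfg.nr_eq (h : Cfg G f c) (i j : Fin m) :
    nr (f i) (f j) = if G.Adj i j then 1 else 0 := by
  rcases lt_trichotomy i j with hij | hij | hij
  · exact h.nr_lt hij
  · rw [hij, nr_self, if_neg G.irrefl]
  · rw [nr_symm (h.prime i) (h.four i) (h.prime j) (h.ne2 j), h.nr_lt hij]
    simp only [G.adj_comm]

theorem Cfg.nr5 (h : Cfg G f c) (i : Fin m) : nr (f i) 5 = 1 := by
  rw [nr_symm (h.prime i) (h.four i) (by norm_num) (by norm_num)]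
  unfold Pool.Agent.Y703.CQ.nr
  rw [if_neg]
  have h1 : ((f i : ℕ) : ZMod 5) = ((f i % 5 : ℕ) : ZMod 5) := by
    rw [ZMod.natCast_mod]
  rw [h1]
  rcases h.five i with h2 | h2
  · rw [h2]
    decide
  · rw [h2]
    decide

theorem Cfg.mk_eq (h : Cfg G f c) (i : Fin m) : Pool.Agent.R413.SQ.mk (f i) = 1 := by
  unfold Pool.Agent.R413.SQ.mk
  rw [if_pos (h.seven i)]

theorem mk5 : Pool.Agent.R413.SQ.mk 5 = 0 := by
  unfold Pool.Agent.R413.SQ.mk
  norm_num

/-- the additional prime -/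
def ex (b : Bool) : Finset ℕ := if b then {5} else ∅

theorem Cfg.disj (h : Cfg G f c) (b : Bool) (S : Finset (Fin m)) : Disjoint (S.image f) (ex b) := by
  rw [Finset.disjoint_left]
  intro p hp hp'
  obtain ⟨i, _, rfl⟩ := Finset.mem_image.1 hp
  unfold ex at hp'
  split_ifs at hp' with h1
  · exact h.ne5 i (Finset.mem_singleton.1 hp')
  · exact absurd hp' (Finset.notMem_empty _)

theorem Cfg.sum (h : Cfg G f c) (b : Bool) (S : Finset (Fin m)) (F : ℕ → ZMod 2) :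
    ∑ q ∈ S.image f ∪ ex b, F q = ∑ j ∈ S, F (f j) + ∑ q ∈ ex b, F q := by
  rw [Finset.sum_union (h.disj b S), Finset.sum_image (fun i _ j _ hij => h.inj hij)]

theorem Cfg.sol (h : Cfg G f c) (b : Bool) (S : Finset (Fin m)) (x : ℕ → ZMod 2) :
    Sol Pool.Agent.Y698.SG.n4 (S.image f ∪ ex b) x ↔
      ∀ i ∈ S, ∑ j ∈ S, (if G.Adj i j then 1 else 0) * (x (f j) + x (f i)) +
        (c + if b then 1 else 0) * x (f i) = 0 := by
  have key : ∀ i, ∑ q ∈ S.image f ∪ ex b, nr (f i) q * (cu x q + x (f i)) + Pool.Agent.Y698.SG.n4 (f i) * x (f i) =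
      ∑ j ∈ S, (if G.Adj i j then 1 else 0) * (x (f j) + x (f i)) +
        (c + if b then 1 else 0) * x (f i) := by
    intro i
    rw [h.sum, h.nfour]
    have h1 : ∑ j ∈ S, nr (f i) (f j) * (cu x (f j) + x (f i)) =
        ∑ j ∈ S, (if G.Adj i j then 1 else 0) * (x (f j) + x (f i)) := by
      refine Finset.sum_congr rfl fun j _ => ?_
      rw [h.nr_eq]
      unfold cu
      rw [if_pos (h.mk_eq j)]
    have h2 : ∑ q ∈ ex b, nr (f i) q * (cu x q + x (f i)) = (if b then 1 else 0) * x (f i) := by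
      unfold ex
      cases b with
      | false => simp
      | true =>
          simp only [if_true, Finset.sum_singleton]
          rw [h.nr5]
          unfold cu
          rw [if_neg (by rw [mk5]; norm_num), zero_add]
    rw [h1, h2]
    ring
  unfold Sol
  constructor
  · intro h1 i hi
    rw [← key]
    exact h1 (f i) (Finset.mem_union_left _ (Finset.mem_image_of_mem _ hi)) (h.mk_eq i)
  · intro h1 p hp hp1
    rcases Finset.mem_union.1 hp with h2 | h2
    · obtain ⟨i, hi, rfl⟩ := Finset.mem_image.1 h2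
      rw [key]
      exact h1 i hi
    · exfalso
      unfold ex at h2
      split_ifs at h2 with h3
      · rw [Finset.mem_singleton.1 h2, mk5] at hp1
        exact absurd hp1 (by norm_num)
      · exact absurd h2 (Finset.notMem_empty _)

theorem Cfg.gd (h : Cfg G f c) (b : Bool) (S : Finset (Fin m)) :
    Gd Pool.Agent.Y698.SG.n4 (S.image f ∪ ex b) ↔ Ker G (c + if b then 1 else 0) S := by
  unfold Gd Ker
  constructor
  · intro h1 y hy i hi
    have h2 := h1 (Function.extend f y 0) ((h.sol b S _).2 (fun i hi => by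
      simp only [h.inj.extend_apply]
      exact hy i hi)) (f i) (Finset.mem_union_left _ (Finset.mem_image_of_mem _ hi)) (h.mk_eq i)
    rwa [h.inj.extend_apply] at h2
  · intro h1 x hx p hp hp1
    rcases Finset.mem_union.1 hp with h2 | h2
    · obtain ⟨i, hi, rfl⟩ := Finset.mem_image.1 h2
      exact h1 (fun i => x (f i)) ((h.sol b S x).1 hx) i hi
    · exfalso
      unfold ex at h2
      split_ifs at h2 with h3
      · rw [Finset.mem_singleton.1 h2, mk5] at hp1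
        exact absurd hp1 (by norm_num)
      · exact absurd h2 (Finset.notMem_empty _)

/-- the factor -/
def dd (b : Bool) : ℕ := if b then 5 else 1

theorem Cfg.prod (h : Cfg G f c) (b : Bool) (S : Finset (Fin m)) :
    dd b * ∏ i ∈ S, f i = ∏ p ∈ S.image f ∪ ex b, p := by
  rw [Finset.prod_union (h.disj b S), Finset.prod_image (fun i _ j _ hij => h.inj hij), mul_comm]
  congr 1
  unfold dd ex
  cases b <;> simp

theorem Cfg.adm (h : Cfg G f c) (b : Bool) (S : Finset (Fin m)) :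
    Adm (dd b * ∏ i ∈ S, f i) ∧ (dd b * ∏ i ∈ S, f i).primeFactors = S.image f ∪ ex b := by
  have h0 : ∀ p ∈ S.image f ∪ ex b, p.Prime ∧ p % 4 = 1 := by
    intro p hp
    rcases Finset.mem_union.1 hp with h2 | h2
    · obtain ⟨i, hi, rfl⟩ := Finset.mem_image.1 h2
      exact ⟨h.prime i, h.four i⟩
    · unfold ex at h2
      split_ifs at h2 with h3
      · rw [Finset.mem_singleton.1 h2]
        norm_num
      · exact absurd h2 (Finset.notMem_empty _)
  rw [h.prod]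
  have h1 : (∏ p ∈ S.image f ∪ ex b, p).primeFactors = S.image f ∪ ex b :=
    Nat.primeFactors_prod fun p hp => (h0 p hp).1
  refine ⟨⟨?_, fun p hp => ?_⟩, h1⟩
  · refine Finset.squarefree_prod_of_pairwise_isCoprime ?_ fun p hp => (h0 p hp).1.squarefree
    intro p hp q hq hpq
    exact Nat.coprime_iff_isRelPrime.1 ((Nat.coprime_primes (h0 p hp).1 (h0 q hq).1).2 hpq)
  · rw [h1] at hp
    exact (h0 p hp).2

theorem Cfg.gd' (h : Cfg G f c) (b : Bool) (S : Finset (Fin m)) :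
    Gd Pool.Agent.Y698.SG.n4 (dd b * ∏ i ∈ S, f i).primeFactors ↔ Ker G (c + if b then 1 else 0) S := by
  rw [(h.adm b S).2, h.gd]

theorem mod_facts {x b : ℕ} (h : x ≡ b [MOD 140]) (h4 : b % 4 = 1)
    (h7 : b % 7 = 1 ∨ b % 7 = 2 ∨ b % 7 = 4) (h5 : b % 5 = 2 ∨ b % 5 = 3) :
    x % 4 = 1 ∧ (x % 7 = 1 ∨ x % 7 = 2 ∨ x % 7 = 4) ∧ (x % 5 = 2 ∨ x % 5 = 3) := by
  have e4 : x % 4 = b % 4 := h.of_dvd (by norm_num)
  have e7 : x % 7 = b % 7 := h.of_dvd (by norm_num)
  have e5 : x % 5 = b % 5 := h.of_dvd (by norm_num)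
  rw [e4, e7, e5]
  exact ⟨h4, h7, h5⟩

theorem exists_flip : ∀ c : ZMod 2, ∃ β : Bool,
    c + (if β then 1 else 0) = 1 ∧ c + (if (!β) then 1 else 0) = 0 := by
  decide

/-- the signs of a graph -/
noncomputable def sgn (G : SimpleGraph (Fin m)) (i j : Fin m) : ℤ := if G.Adj i j then -1 else 1

theorem sgn_or (G : SimpleGraph (Fin m)) (i j : Fin m) : sgn G i j = 1 ∨ sgn G i j = -1 := by
  unfold sgn
  split_ifs
  · exact Or.inr rfl
  · exact Or.inl rfl

/-- **Clusters of twists.** -/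
theorem main (m L b : ℕ) (hL0 : 0 < L) (hL : 140 ∣ L) (hb : b.Coprime L) (h4 : b % 4 = 1)
    (h7 : b % 7 = 1 ∨ b % 7 = 2 ∨ b % 7 = 4) (h5 : b % 5 = 2 ∨ b % 5 = 3) :
    ∃ (C : ℕ) (H : Finset ℕ) (h : SimpleGraph (Fin m) → Fin m → ℕ) (β : Bool),
      (∀ G, StrictMono (h G) ∧ ∀ i, h G i ∈ H) ∧ (∀ y ∈ H, y ≤ C) ∧
      {n : ℕ | (∀ y ≤ C, ((n + y).Prime ↔ y ∈ H)) ∧ (∀ y ∈ H, n + y ≡ b [MOD L]) ∧
        ∀ (G : SimpleGraph (Fin m)) (γ : Bool) (S : Finset (Fin m)),
          Adm (dd γ * ∏ i ∈ S, (n + h G i)) ∧ (S.Nonempty →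
            (Gd Pool.Agent.Y698.SG.n4 (dd γ * ∏ i ∈ S, (n + h G i)).primeFactors ↔ γ = β ∧ Nonsing G S))}.Infinite := by
  obtain ⟨C, H, A, h3, hA, h6, h8, h10⟩ := clusters m L b hL0 hb (fun p => ∃ y : ZMod p, y ^ 4 = -7)
  have hfin : ∀ (c : ZMod 2) (h : SimpleGraph (Fin m) → Fin m → ℕ),
      (∀ G, StrictMono (h G) ∧ (∀ i, h G i ∈ H) ∧
        (∀ n ∈ A, ∀ i j, i < j → jacobiSym ((n + h G j : ℕ) : ℤ) (n + h G i) = sgn G i j) ∧
        ∀ n ∈ A, ∀ i, Pool.Agent.Y698.SG.n4 (n + h G i) = c) →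
      ∃ β : Bool, {n : ℕ | (∀ y ≤ C, ((n + y).Prime ↔ y ∈ H)) ∧ (∀ y ∈ H, n + y ≡ b [MOD L]) ∧
        ∀ (G : SimpleGraph (Fin m)) (γ : Bool) (S : Finset (Fin m)),
          Adm (dd γ * ∏ i ∈ S, (n + h G i)) ∧ (S.Nonempty →
            (Gd Pool.Agent.Y698.SG.n4 (dd γ * ∏ i ∈ S, (n + h G i)).primeFactors ↔ γ = β ∧ Nonsing G S))}.Infinite := by
    intro c h hc
    obtain ⟨β, hβ⟩ := exists_flip c
    refine ⟨β, hA.mono ?_⟩
    intro n hn
    refine ⟨h6 n hn, h8 n hn, fun G γ S => ?_⟩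
    obtain ⟨h1, h2, h9, h11⟩ := hc G
    have hmod := fun i => mod_facts ((h8 n hn _ (h2 i)).of_dvd hL) h4 h7 h5
    have h : Cfg G (fun i => n + h G i) c :=
      ⟨fun i j hij => h1.injective (Nat.add_left_cancel hij),
        fun i => (h6 n hn _ (h3 _ (h2 i))).2 (h2 i), fun i => (hmod i).1, fun i => (hmod i).2.1,
        fun i => (hmod i).2.2, fun i j hij => h9 n hn i j hij, h11 n hn⟩
    refine ⟨(h.adm γ S).1, fun hS => ?_⟩
    rw [h.gd' γ S]
    by_cases hγ : γ = β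
    · rw [hγ, hβ.1, ker_iff]
      simp
    · have h12 : γ = !β := by
        cases γ <;> cases β <;> simp_all
      rw [h12, hβ.2]
      constructor
      · intro h13
        exact absurd h13 (ker_zero G hS)
      · rintro ⟨h13, -⟩
        exact absurd h13 (by simp)
  rcases h10 with h10 | h10
  · choose h h1 h2 h9 h11 using fun G : SimpleGraph (Fin m) => h10 (sgn G) (sgn_or G)
    obtain ⟨β, hβ⟩ := hfin 0 h (fun G => ⟨h1 G, h2 G, h9 G, fun n hn i => by
      unfold Pool.Agent.Y698.SG.n4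
      rw [if_pos (h11 G n hn i)]⟩)
    exact ⟨C, H, h, β, fun G => ⟨h1 G, h2 G⟩, h3, hβ⟩
  · choose h h1 h2 h9 h11 using fun G : SimpleGraph (Fin m) => h10 (sgn G) (sgn_or G)
    obtain ⟨β, hβ⟩ := hfin 1 h (fun G => ⟨h1 G, h2 G, h9 G, fun n hn i => by
      unfold Pool.Agent.Y698.SG.n4
      rw [if_neg (h11 G n hn i)]⟩)
    exact ⟨C, H, h, β, fun G => ⟨h1 G, h2 G⟩, h3, hβ⟩

end Pool.Agent.U974.TW
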