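import Mathlib
import Pool.Agent.U974.TW.X49

/-! # Clusters of primes relative to a finite set of primes -/

set_option autoImplicit false

namespace Pool.Agent.U974.TW

open Finset
open Pool.Agent.R413.SQ
open Pool.Agent.Y703.CQ (nr)
open Pool.Agent.R413.SQ.BOX (nr_self nr_symm)

open scoped Classical

/-- a cluster of primes relative to the set `T` and the auxiliary inert prime `r` -/
structure CfgF {m : ℕ} (G : SimpleGraph (Fin m)) (f : Fin m → ℕ) (c : ZMod 2) (T : Finset ℕ) (r : ℕ) :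
    Prop where
  inj : Function.Injective f
  prime : ∀ i, (f i).Prime
  four : ∀ i, f i % 4 = 1
  split : ∀ i, Pool.Agent.R413.SQ.mk (f i) = 1
  sym : ∀ i j, nr (f i) (f j) = if G.Adj i j then 1 else 0
  nfour : ∀ i, Pool.Agent.Y698.SG.n4 (f i) = c
  tprime : ∀ q ∈ T, q.Prime ∧ q % 4 = 1
  rprime : r.Prime ∧ r % 4 = 1
  rinert : Pool.Agent.R413.SQ.mk r ≠ 1
  rT : r ∉ T
  fT : ∀ i, f i ∉ T
  fr : ∀ i, f i ≠ r
  nT : ∀ i, ∀ q ∈ T, nr (f i) q = 0
  nr1 : ∀ i, nr (f i) r = 1
  rq : ∀ q ∈ T, nr q r = 0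

variable {m : ℕ} {G : SimpleGraph (Fin m)} {f : Fin m → ℕ} {c : ZMod 2} {T : Finset ℕ} {r : ℕ}

/-- the additional prime -/
def exr (r : ℕ) (b : Bool) : Finset ℕ := if b then {r} else ∅

/-- the set of primes -/
noncomputable def PP (f : Fin m → ℕ) (r : ℕ) (U : Finset ℕ) (b : Bool) (S : Finset (Fin m)) : Finset ℕ :=
  (U ∪ exr r b) ∪ S.image f

theorem mem_exr {b : Bool} {p : ℕ} (h : p ∈ exr r b) : p = r := by
  unfold exr at h
  split_ifs at h with h1
  · exact Finset.mem_singleton.1 h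
  · exact absurd h (Finset.notMem_empty _)

theorem CfgF.nTs (h : CfgF G f c T r) (i : Fin m) {q : ℕ} (hq : q ∈ T) : nr q (f i) = 0 := by
  have h4 := h.four i
  rw [nr_symm (h.tprime q hq).1 (h.tprime q hq).2 (h.prime i) (by omega)]
  exact h.nT i q hq

theorem CfgF.disj1 (h : CfgF G f c T r) {U : Finset ℕ} (hU : U ⊆ T) (b : Bool) : Disjoint U (exr r b) := by
  rw [Finset.disjoint_left]
  intro p hp hp'
  rw [mem_exr hp'] at hp
  exact h.rT (hU hp)

theorem CfgF.disj2 (h : CfgF G f c T r) {U : Finset ℕ} (hU : U ⊆ T) (b : Bool) (S : Finset (Fin m)) :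
    Disjoint (U ∪ exr r b) (S.image f) := by
  rw [Finset.disjoint_left]
  intro p hp hp'
  obtain ⟨i, _, rfl⟩ := Finset.mem_image.1 hp'
  rcases Finset.mem_union.1 hp with h1 | h1
  · exact h.fT i (hU h1)
  · exact h.fr i (mem_exr h1)

theorem CfgF.sum (h : CfgF G f c T r) {U : Finset ℕ} (hU : U ⊆ T) (b : Bool) (S : Finset (Fin m))
    (F : ℕ → ZMod 2) : ∑ q ∈ PP f r U b S, F q =
      ∑ q ∈ U, F q + (if b then F r else 0) + ∑ j ∈ S, F (f j) := by
  unfold PP
  rw [Finset.sum_union (h.disj2 hU b S), Finset.sum_union (h.disj1 hU b),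
    Finset.sum_image (fun i _ j _ hij => h.inj hij)]
  congr 2
  unfold exr
  cases b <;> simp

theorem CfgF.cu_r (h : CfgF G f c T r) (x : ℕ → ZMod 2) : cu x r = 0 := by
  unfold cu
  rw [if_neg h.rinert]

theorem CfgF.cu_f (h : CfgF G f c T r) (x : ℕ → ZMod 2) (i : Fin m) : cu x (f i) = x (f i) := by
  unfold cu
  rw [if_pos (h.split i)]

/-- the equation at `f i` -/
theorem CfgF.eq_f (h : CfgF G f c T r) {U : Finset ℕ} (hU : U ⊆ T) (b : Bool) (S : Finset (Fin m))
    (x : ℕ → ZMod 2) (i : Fin m) :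
    ∑ q ∈ PP f r U b S, nr (f i) q * (cu x q + x (f i)) + Pool.Agent.Y698.SG.n4 (f i) * x (f i) =
      ∑ j ∈ S, (if G.Adj i j then 1 else 0) * (x (f j) + x (f i)) +
        (c + if b then 1 else 0) * x (f i) := by
  rw [h.sum hU, h.nfour]
  have h1 : ∑ q ∈ U, nr (f i) q * (cu x q + x (f i)) = 0 :=
    Finset.sum_eq_zero fun q hq => by rw [h.nT i q (hU hq), zero_mul]
  have h2 : ∑ j ∈ S, nr (f i) (f j) * (cu x (f j) + x (f i)) =
      ∑ j ∈ S, (if G.Adj i j then 1 else 0) * (x (f j) + x (f i)) :=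
    Finset.sum_congr rfl fun j _ => by rw [h.sym, h.cu_f]
  rw [h1, h2, h.nr1, h.cu_r]
  cases b <;> simp <;> ring

/-- the equation at `p ∈ U` -/
theorem CfgF.eq_U (h : CfgF G f c T r) {U : Finset ℕ} (hU : U ⊆ T) (b : Bool) (S : Finset (Fin m))
    (x : ℕ → ZMod 2) {p : ℕ} (hp : p ∈ T) :
    ∑ q ∈ PP f r U b S, nr p q * (cu x q + x p) + Pool.Agent.Y698.SG.n4 p * x p =
      ∑ q ∈ U, nr p q * (cu x q + x p) + Pool.Agent.Y698.SG.n4 p * x p := by
  rw [h.sum hU]
  have h2 : ∑ j ∈ S, nr p (f j) * (cu x (f j) + x p) = 0 :=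
    Finset.sum_eq_zero fun j _ => by rw [h.nTs j hp, zero_mul]
  rw [h2, h.rq p hp]
  simp

theorem CfgF.gd (h : CfgF G f c T r) {U : Finset ℕ} (hU : U ⊆ T) (b : Bool) (S : Finset (Fin m)) :
    Gd Pool.Agent.Y698.SG.n4 (PP f r U b S) ↔
      Gd Pool.Agent.Y698.SG.n4 U ∧ Ker G (c + if b then 1 else 0) S := by
  have memU : ∀ {p}, p ∈ U → p ∈ PP f r U b S := fun hp =>
    Finset.mem_union_left _ (Finset.mem_union_left _ hp)
  have memf : ∀ {i}, i ∈ S → f i ∈ PP f r U b S := fun hi =>
    Finset.mem_union_right _ (Finset.mem_image_of_mem _ hi)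
  constructor
  · intro hg
    refine ⟨?_, ?_⟩
    · intro x hx p hp hp1
      let x' : ℕ → ZMod 2 := fun q => if q ∈ U then x q else 0
      have hxU : ∀ q ∈ U, x' q = x q := fun q hq => if_pos hq
      have hxf : ∀ i, x' (f i) = 0 := fun i => if_neg fun hi => h.fT i (hU hi)
      have hcu : ∀ q ∈ U, cu x' q = cu x q := by
        intro q hq
        unfold cu
        rw [hxU q hq]
      have hsol : Sol Pool.Agent.Y698.SG.n4 (PP f r U b S) x' := by
        intro q hq hq1
        unfold PP at hq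
        rcases Finset.mem_union.1 hq with h1 | h1
        · rcases Finset.mem_union.1 h1 with h1 | h1
          · rw [h.eq_U hU b S x' (hU h1)]
            have h2 := hx q h1 hq1
            rw [← h2]
            congr 1
            · refine Finset.sum_congr rfl fun q' hq' => ?_
              rw [hcu q' hq', hxU q h1]
            · rw [hxU q h1]
          · rw [mem_exr h1] at hq1
            exact absurd hq1 h.rinert
        · obtain ⟨i, _, rfl⟩ := Finset.mem_image.1 h1
          rw [h.eq_f hU]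
          simp only [hxf, add_zero, mul_zero, Finset.sum_const_zero]
      have h3 := hg x' hsol p (memU hp) hp1
      rwa [hxU p hp] at h3
    · intro y hy i hi
      let x' : ℕ → ZMod 2 := Function.extend f y 0
      have hxf : ∀ i, x' (f i) = y i := fun i => h.inj.extend_apply _ _ i
      have hxU : ∀ q ∈ T, x' q = 0 := by
        intro q hq
        refine Function.extend_apply' _ _ _ ?_
        rintro ⟨j, hj⟩
        exact h.fT j (hj ▸ hq)
      have hsol : Sol Pool.Agent.Y698.SG.n4 (PP f r U b S) x' := by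
        intro q hq hq1
        unfold PP at hq
        rcases Finset.mem_union.1 hq with h1 | h1
        · rcases Finset.mem_union.1 h1 with h1 | h1
          · rw [h.eq_U hU b S x' (hU h1)]
            rw [hxU q (hU h1), mul_zero, add_zero]
            refine Finset.sum_eq_zero fun q' hq' => ?_
            unfold cu
            rw [hxU q' (hU hq')]
            simp
          · rw [mem_exr h1] at hq1
            exact absurd hq1 h.rinert
        · obtain ⟨i, hi, rfl⟩ := Finset.mem_image.1 h1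
          rw [h.eq_f hU]
          simp only [hxf]
          exact hy i hi
      have h3 := hg x' hsol (f i) (memf hi) (h.split i)
      rwa [hxf] at h3
  · rintro ⟨hg, hk⟩ x hx p hp hp1
    have hp0 := hp
    unfold PP at hp
    rcases Finset.mem_union.1 hp with h1 | h1
    · rcases Finset.mem_union.1 h1 with h1 | h1
      · refine hg x (fun q hq hq1 => ?_) p h1 hp1
        rw [← h.eq_U hU b S x (hU hq)]
        exact hx q (memU hq) hq1
      · rw [mem_exr h1] at hp1
        exact absurd hp1 h.rinert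
    · obtain ⟨i, hi, rfl⟩ := Finset.mem_image.1 h1
      refine hk (fun i => x (f i)) (fun j hj => ?_) i hi
      have h2 := hx (f j) (memf hj) (h.split j)
      rwa [h.eq_f hU] at h2

theorem CfgF.p4 (h : CfgF G f c T r) {U : Finset ℕ} (hU : U ⊆ T) (b : Bool) (S : Finset (Fin m)) :
    ∀ p ∈ PP f r U b S, p.Prime ∧ p % 4 = 1 := by
  intro p hp
  unfold PP at hp
  rcases Finset.mem_union.1 hp with h1 | h1
  · rcases Finset.mem_union.1 h1 with h1 | h1
    · exact h.tprime p (hU h1)
    · rw [mem_exr h1]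
      exact h.rprime
  · obtain ⟨i, _, rfl⟩ := Finset.mem_image.1 h1
    exact ⟨h.prime i, h.four i⟩

theorem CfgF.prod (h : CfgF G f c T r) {U : Finset ℕ} (hU : U ⊆ T) (b : Bool) (S : Finset (Fin m)) :
    ∏ p ∈ PP f r U b S, p = (∏ p ∈ U, p) * ((if b then r else 1) * ∏ i ∈ S, f i) := by
  unfold PP
  rw [Finset.prod_union (h.disj2 hU b S), Finset.prod_union (h.disj1 hU b),
    Finset.prod_image (fun i _ j _ hij => h.inj hij), mul_assoc]
  congr 2
  unfold exr
  cases b <;> simp

end Pool.Agent.U974.TW
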