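import Mathlib
import Pool.Agent.U974.TW.Fld1

/-! # Clusters of primes relative to a finite set of primes: existence -/

set_option autoImplicit false

namespace Pool.Agent.U974.TW

open Finset
open Pool.Agent.Y703.CQ (nr)
open Pool.Agent.R413.SQ.BOX (nr_self nr_symm)

open scoped Classical

theorem nr_of_jac {p q : ℕ} (hp : p.Prime) (hq : q.Prime) (hpq : p ≠ q) {P : Prop}
    (h : jacobiSym (q : ℤ) p = if P then -1 else 1) : nr p q = if P then 1 else 0 := by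
  have : Fact p.Prime := ⟨hp⟩
  rw [← jacobiSym.legendreSym.to_jacobiSym] at h
  have h2 : ((q : ℕ) : ZMod p) ≠ 0 := by
    rw [Ne, ZMod.natCast_eq_zero_iff]
    intro hd
    exact hpq ((Nat.prime_dvd_prime_iff_eq hp hq).1 hd)
  have h2' : (((q : ℕ) : ℤ) : ZMod p) ≠ 0 := by
    rw [Int.cast_natCast]
    exact h2
  have h3 := legendreSym.eq_one_iff p h2'
  rw [Int.cast_natCast] at h3
  unfold Pool.Agent.Y703.CQ.nr
  by_cases hG : P
  · rw [if_pos hG] at h ⊢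
    rw [if_neg]
    intro h4
    have h5 := h3.2 h4
    rw [h] at h5
    exact absurd h5 (by norm_num)
  · rw [if_neg hG] at h ⊢
    rw [if_pos (h3.1 h)]

theorem nr_eq_zero_of {p q : ℕ} (h : q ≡ 1 [MOD p]) : nr p q = 0 := by
  unfold Pool.Agent.Y703.CQ.nr
  rw [if_pos]
  have h1 : (q : ZMod p) = ((1 : ℕ) : ZMod p) := (ZMod.natCast_eq_natCast_iff _ _ _).2 h
  rw [h1]
  exact ⟨1, by simp⟩

theorem nr_eq_one_of {p q c : ℕ} (h : q ≡ c [MOD p]) (hc : ¬ IsSquare (c : ZMod p)) : nr p q = 1 := by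
  unfold Pool.Agent.Y703.CQ.nr
  rw [if_neg]
  rwa [(ZMod.natCast_eq_natCast_iff _ _ _).2 h]

theorem coprime_of_modEq_one {a M : ℕ} (h : a ≡ 1 [MOD M]) : a.Coprime M := by
  have h1 := h.gcd_eq
  rw [Nat.Coprime, h1]
  simp

/-- the auxiliary prime -/
theorem exists_r (M : ℕ) (hM : 0 < M) (h7 : M.Coprime 7) :
    ∃ r : ℕ, r.Prime ∧ 7 * M < r ∧ r ≡ 1 [MOD M] ∧ r % 7 = 3 := by
  obtain ⟨a, ha1, ha2⟩ := Nat.chineseRemainder h7 1 3
  have hcop : a.Coprime (M * 7) := by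
    refine Nat.Coprime.mul_right (coprime_of_modEq_one ha1) ?_
    rw [Nat.Coprime, ha2.gcd_eq]
    norm_num
  obtain ⟨p, hp1, hp2, hp3⟩ := Nat.forall_exists_prime_gt_and_modEq (7 * M) (q := M * 7) (a := a)
    (by positivity) hcop
  refine ⟨p, hp2, hp1, (hp3.of_dvd (Nat.dvd_mul_right M 7)).trans ha1, ?_⟩
  have h1 : p ≡ 3 [MOD 7] := (hp3.of_dvd (Nat.dvd_mul_left 7 M)).trans ha2
  exact h1

/-- the class of the primes of the cluster -/
theorem exists_class (M r : ℕ) (hr : r.Prime) (hr2 : r ≠ 2) (hMr : M.Coprime r) :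
    ∃ c₀ : ℕ, c₀ ≡ 1 [MOD M] ∧ (¬ IsSquare (c₀ : ZMod r)) ∧ c₀.Coprime (M * r) := by
  have : Fact r.Prime := ⟨hr⟩
  obtain ⟨g, hg⟩ := FiniteField.exists_nonsquare (F := ZMod r) (by
    rw [ZMod.ringChar_zmod_n]
    exact hr2)
  obtain ⟨a, ha1, ha2⟩ := Nat.chineseRemainder hMr 1 g.val
  have h1 : (a : ZMod r) = g := by
    rw [(ZMod.natCast_eq_natCast_iff _ _ _).2 ha2, ZMod.natCast_zmod_val]
  refine ⟨a, ha1, by rwa [h1], Nat.Coprime.mul_right (coprime_of_modEq_one ha1) ?_⟩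
  rw [Nat.coprime_comm, Nat.Prime.coprime_iff_not_dvd hr]
  intro h2
  have h3 : (a : ZMod r) = 0 := (ZMod.natCast_eq_zero_iff _ _).2 h2
  apply hg
  rw [← h1, h3]
  exact ⟨0, by simp⟩

/-- **Clusters of primes relative to a finite set of primes.** -/
theorem rel (m N : ℕ) (hN : 0 < N) (h7 : N.Coprime 7) (T : Finset ℕ)
    (hT : ∀ q ∈ T, q.Prime ∧ q % 4 = 1) :
    ∃ r : ℕ, r.Prime ∧ r ≡ 1 [MOD 4 * N] ∧ r % 7 = 3 ∧
    ∃ (C : ℕ) (H : Finset ℕ) (h : SimpleGraph (Fin m) → Fin m → ℕ) (c : ZMod 2),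
      (∀ G, StrictMono (h G) ∧ ∀ i, h G i ∈ H) ∧ (∀ y ∈ H, y ≤ C) ∧
      {n : ℕ | (∀ y ≤ C, ((n + y).Prime ↔ y ∈ H)) ∧ (∀ y ∈ H, n + y ≡ 1 [MOD 28 * N]) ∧
        ∀ G : SimpleGraph (Fin m), CfgF G (fun i => n + h G i) c T r}.Infinite := by
  have hP : 0 < ∏ q ∈ T, q := Finset.prod_pos fun q hq => (hT q hq).1.pos
  have hM : 0 < 4 * N * ∏ q ∈ T, q := by positivity
  have hM7 : (4 * N * ∏ q ∈ T, q).Coprime 7 := by
    refine Nat.Coprime.mul_left (Nat.Coprime.mul_left (by norm_num) h7) (Nat.Coprime.prod_left ?_)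
    intro q hq
    refine (Nat.coprime_primes (hT q hq).1 (by norm_num)).2 ?_
    rintro rfl
    have := (hT 7 hq).2
    omega
  obtain ⟨r, hr, hr1, hr2, hr3⟩ := exists_r _ hM hM7
  have hrq : ∀ q ∈ T, r ≡ 1 [MOD q] := fun q hq =>
    hr2.of_dvd ((Finset.dvd_prod_of_mem _ hq).trans (Nat.dvd_mul_left _ _))
  have hr4 : r % 4 = 1 := by
    have h1 : r ≡ 1 [MOD 4] := hr2.of_dvd (Dvd.intro _ (by ring : 4 * (N * ∏ q ∈ T, q) = _))
    exact h1
  have hrT : r ∉ T := by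
    intro h1
    have h2 := hrq r h1
    have h3 : r % r = 1 % r := h2
    rw [Nat.mod_self, Nat.mod_eq_of_lt hr.one_lt] at h3
    omega
  have hcop : (7 * (4 * N * ∏ q ∈ T, q)).Coprime r := by
    rw [Nat.coprime_comm, Nat.Prime.coprime_iff_not_dvd hr]
    intro h1
    have := Nat.le_of_dvd (by positivity) h1
    omega
  obtain ⟨c₀, hc1, hc2, hc3⟩ := exists_class _ r hr (by omega) hcop
  refine ⟨r, hr, hr2.of_dvd (Nat.dvd_mul_right _ _), hr3, ?_⟩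
  obtain ⟨C, H, A, h3, hA, h6, h8, h10⟩ := clusters m (7 * (4 * N * ∏ q ∈ T, q) * r) c₀
    (Nat.mul_pos (by positivity) hr.pos) hc3 (fun p => ∃ y : ZMod p, y ^ 4 = -7)
  have hmod : ∀ n ∈ A, ∀ y ∈ H, n + y ≡ 1 [MOD 7 * (4 * N * ∏ q ∈ T, q)] := fun n hn y hy =>
    ((h8 n hn y hy).of_dvd (Nat.dvd_mul_right _ _)).trans hc1
  have hmr : ∀ n ∈ A, ∀ y ∈ H, n + y ≡ c₀ [MOD r] := fun n hn y hy =>
    (h8 n hn y hy).of_dvd (Nat.dvd_mul_left _ _)
  have hfin : ∀ (c : ZMod 2) (h : SimpleGraph (Fin m) → Fin m → ℕ),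
      (∀ G, StrictMono (h G) ∧ (∀ i, h G i ∈ H) ∧
        (∀ n ∈ A, ∀ i j, i < j → jacobiSym ((n + h G j : ℕ) : ℤ) (n + h G i) = sgn G i j) ∧
        ∀ n ∈ A, ∀ i, Pool.Agent.Y698.SG.n4 (n + h G i) = c) →
      {n : ℕ | (∀ y ≤ C, ((n + y).Prime ↔ y ∈ H)) ∧ (∀ y ∈ H, n + y ≡ 1 [MOD 28 * N]) ∧
        ∀ G : SimpleGraph (Fin m), CfgF G (fun i => n + h G i) c T r}.Infinite := by
    intro c h hc
    refine hA.mono ?_
    intro n hn
    refine ⟨h6 n hn, fun y hy => (hmod n hn y hy).of_dvd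
      (Dvd.intro (∏ q ∈ T, q) (by ring)), fun G => ?_⟩
    obtain ⟨h1, h2, h9, h11⟩ := hc G
    have hpr : ∀ i, (n + h G i).Prime := fun i => (h6 n hn _ (h3 _ (h2 i))).2 (h2 i)
    have hinj : Function.Injective (fun i => n + h G i) :=
      fun i j hij => h1.injective (Nat.add_left_cancel hij)
    have hf4 : ∀ i, (n + h G i) % 4 = 1 := fun i =>
      (hmod n hn _ (h2 i)).of_dvd (Dvd.intro (7 * N * ∏ q ∈ T, q) (by ring))
    have hf7 : ∀ i, (n + h G i) % 7 = 1 := fun i =>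
      (hmod n hn _ (h2 i)).of_dvd (Nat.dvd_mul_right _ _)
    have hfq : ∀ i, ∀ q ∈ T, n + h G i ≡ 1 [MOD q] := fun i q hq =>
      (hmod n hn _ (h2 i)).of_dvd ((Finset.dvd_prod_of_mem _ hq).trans
        ((Nat.dvd_mul_left _ (4 * N)).trans (Nat.dvd_mul_left _ 7)))
    have hfr : ∀ i, nr r (n + h G i) = 1 := fun i => nr_eq_one_of (hmr n hn _ (h2 i)) hc2
    have hlt : ∀ i j, i < j → nr (n + h G i) (n + h G j) = if G.Adj i j then 1 else 0 := fun i j hij =>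
      nr_of_jac (hpr i) (hpr j) (fun h4 => hij.ne (hinj h4)) (h9 n hn i j hij)
    refine ⟨hinj, hpr, hf4, fun i => ?_, fun i j => ?_, fun i => h11 n hn i, hT, ⟨hr, hr4⟩, ?_, hrT,
      fun i hi => ?_, fun i hi => ?_, fun i q hq => ?_, fun i => ?_, fun q hq => ?_⟩
    · unfold Pool.Agent.R413.SQ.mk
      rw [if_pos (Or.inl (hf7 i))]
    · show nr (n + h G i) (n + h G j) = _
      rcases lt_trichotomy i j with hij | hij | hij
      · exact hlt i j hij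
      · rw [hij, nr_self, if_neg G.irrefl]
      · rw [nr_symm (hpr i) (hf4 i) (hpr j) (by have := hf4 j; omega), hlt j i hij]
        simp only [G.adj_comm]
    · unfold Pool.Agent.R413.SQ.mk
      rw [hr3]
      norm_num
    · have h4 : (n + h G i) % (n + h G i) = 1 % (n + h G i) := hfq i _ hi
      rw [Nat.mod_self, Nat.mod_eq_of_lt (hpr i).one_lt] at h4
      omega
    · have h4 := hfr i
      have h5 : n + h G i = r := hi
      rw [h5, nr_self] at h4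
      exact absurd h4 (by decide)
    · show nr (n + h G i) q = 0
      rw [nr_symm (hpr i) (hf4 i) (hT q hq).1 (by have := (hT q hq).2; omega)]
      exact nr_eq_zero_of (hfq i q hq)
    · show nr (n + h G i) r = 1
      rw [nr_symm (hpr i) (hf4 i) hr (by omega)]
      exact hfr i
    · exact nr_eq_zero_of (hrq q hq)
  rcases h10 with h10 | h10
  · choose h h1 h2 h9 h11 using fun G : SimpleGraph (Fin m) => h10 (sgn G) (sgn_or G)
    exact ⟨C, H, h, 0, fun G => ⟨h1 G, h2 G⟩, h3, hfin 0 h (fun G => ⟨h1 G, h2 G, h9 G, fun n hn i => by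
      unfold Pool.Agent.Y698.SG.n4
      rw [if_pos (h11 G n hn i)]⟩)⟩
  · choose h h1 h2 h9 h11 using fun G : SimpleGraph (Fin m) => h10 (sgn G) (sgn_or G)
    exact ⟨C, H, h, 1, fun G => ⟨h1 G, h2 G⟩, h3, hfin 1 h (fun G => ⟨h1 G, h2 G, h9 G, fun n hn i => by
      unfold Pool.Agent.Y698.SG.n4
      rw [if_neg (h11 G n hn i)]⟩)⟩

end Pool.Agent.U974.TW
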