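import Mathlib
import Pool.Agent.U974.TW.Fld2
import Pool.Agent.U974.PP.Col

/-! # Configurations relative to a finite set of primes, for a positive proportion of the tuples -/

set_option autoImplicit false

namespace Pool.Agent.U974.TW

open Finset
open Pool.Agent.Y703.CQ (nr)
open Pool.Agent.R413.SQ.BOX (nr_self nr_symm)

open scoped Classical

/-- the auxiliary data -/
theorem exists_aux (N : ℕ) (hN : 0 < N) (h7 : N.Coprime 7) (T : Finset ℕ)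
    (hT : ∀ q ∈ T, q.Prime ∧ q % 4 = 1) :
    ∃ r c₀ : ℕ, r.Prime ∧ r ≡ 1 [MOD 4 * N] ∧ r % 7 = 3 ∧ c₀.Coprime (7 * (4 * N * ∏ q ∈ T, q) * r) ∧
      ∀ (m : ℕ) (G : SimpleGraph (Fin m)) (c : ZMod 2) (h : Fin m → ℕ) (n : ℕ), StrictMono h →
        (∀ i, (n + h i).Prime ∧ n + h i ≡ c₀ [MOD 7 * (4 * N * ∏ q ∈ T, q) * r] ∧
          Pool.Agent.Y698.SG.n4 (n + h i) = c) →
        (∀ i j, i < j → jacobiSym ((n + h j : ℕ) : ℤ) (n + h i) = sgn G i j) →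
        CfgF G (fun i => n + h i) c T r ∧ ∀ i, n + h i ≡ 1 [MOD 28 * N] := by
  have hP : 0 < ∏ q ∈ T, q := Finset.prod_pos fun q hq => (hT q hq).1.pos
  have hM : 0 < 4 * N * ∏ q ∈ T, q := by positivity
  have hM7 : (4 * N * ∏ q ∈ T, q).Coprime 7 := by
    refine Nat.Coprime.mul_left (Nat.Coprime.mul_left (by norm_num) h7) (Nat.Coprime.prod_left ?_)
    intro q hq
    refine (Nat.coprime_primes (hT q hq).1 (by norm_num)).2 ?_
    rintro rfl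
    have := (hT 7 hq).2
    omega
  obtain ⟨r, hr, hr1, hr2, hr3⟩ := exists_r _ hM hM7
  have hrq : ∀ q ∈ T, r ≡ 1 [MOD q] := fun q hq =>
    hr2.of_dvd ((Finset.dvd_prod_of_mem _ hq).trans (Nat.dvd_mul_left _ _))
  have hr4 : r % 4 = 1 := by
    have h1 : r ≡ 1 [MOD 4] := hr2.of_dvd (Dvd.intro _ (by ring : 4 * (N * ∏ q ∈ T, q) = _))
    exact h1
  have hrT : r ∉ T := by
    intro h1
    have h2 := hrq r h1
    have h3 : r % r = 1 % r := h2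
    rw [Nat.mod_self, Nat.mod_eq_of_lt hr.one_lt] at h3
    omega
  have hcop : (7 * (4 * N * ∏ q ∈ T, q)).Coprime r := by
    rw [Nat.coprime_comm, Nat.Prime.coprime_iff_not_dvd hr]
    intro h1
    have := Nat.le_of_dvd (by positivity) h1
    omega
  obtain ⟨c₀, hc1, hc2, hc3⟩ := exists_class _ r hr (by omega) hcop
  refine ⟨r, c₀, hr, hr2.of_dvd (Nat.dvd_mul_right _ _), hr3, hc3, fun m G c h n hh hn hsym => ?_⟩
  have hmod : ∀ i, n + h i ≡ 1 [MOD 7 * (4 * N * ∏ q ∈ T, q)] := fun i =>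
    ((hn i).2.1.of_dvd (Nat.dvd_mul_right _ _)).trans hc1
  have hmr : ∀ i, n + h i ≡ c₀ [MOD r] := fun i => (hn i).2.1.of_dvd (Nat.dvd_mul_left _ _)
  have hpr : ∀ i, (n + h i).Prime := fun i => (hn i).1
  have hinj : Function.Injective (fun i => n + h i) :=
    fun i j hij => hh.injective (Nat.add_left_cancel hij)
  have hf4 : ∀ i, (n + h i) % 4 = 1 := fun i =>
    (hmod i).of_dvd (Dvd.intro (7 * N * ∏ q ∈ T, q) (by ring))
  have hf7 : ∀ i, (n + h i) % 7 = 1 := fun i => (hmod i).of_dvd (Nat.dvd_mul_right _ _)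
  have hfq : ∀ i, ∀ q ∈ T, n + h i ≡ 1 [MOD q] := fun i q hq =>
    (hmod i).of_dvd ((Finset.dvd_prod_of_mem _ hq).trans
      ((Nat.dvd_mul_left _ (4 * N)).trans (Nat.dvd_mul_left _ 7)))
  have hfr : ∀ i, nr r (n + h i) = 1 := fun i => nr_eq_one_of (hmr i) hc2
  have hlt : ∀ i j, i < j → nr (n + h i) (n + h j) = if G.Adj i j then 1 else 0 := fun i j hij =>
    nr_of_jac (hpr i) (hpr j) (fun h4 => hij.ne (hinj h4)) (hsym i j hij)
  refine ⟨⟨hinj, hpr, hf4, fun i => ?_, fun i j => ?_, fun i => (hn i).2.2, hT, ⟨hr, hr4⟩, ?_, hrT,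
    fun i hi => ?_, fun i hi => ?_, fun i q hq => ?_, fun i => ?_, fun q hq => ?_⟩, fun i => ?_⟩
  · unfold Pool.Agent.R413.SQ.mk
    rw [if_pos (Or.inl (hf7 i))]
  · show nr (n + h i) (n + h j) = _
    rcases lt_trichotomy i j with hij | hij | hij
    · exact hlt i j hij
    · rw [hij, nr_self, if_neg G.irrefl]
    · rw [nr_symm (hpr i) (hf4 i) (hpr j) (by have := hf4 j; omega), hlt j i hij]
      simp only [G.adj_comm]
  · unfold Pool.Agent.R413.SQ.mk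
    rw [hr3]
    norm_num
  · have h4 : (n + h i) % (n + h i) = 1 % (n + h i) := hfq i _ hi
    rw [Nat.mod_self, Nat.mod_eq_of_lt (hpr i).one_lt] at h4
    omega
  · have h4 := hfr i
    have h5 : n + h i = r := hi
    rw [h5, nr_self] at h4
    exact absurd h4 (by decide)
  · show nr (n + h i) q = 0
    rw [nr_symm (hpr i) (hf4 i) (hT q hq).1 (by have := (hT q hq).2; omega)]
    exact nr_eq_zero_of (hfq i q hq)
  · show nr (n + h i) r = 1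
    rw [nr_symm (hpr i) (hf4 i) hr (by omega)]
    exact hfr i
  · exact nr_eq_zero_of (hrq q hq)
  · exact (hmod i).of_dvd (Dvd.intro (∏ q ∈ T, q) (by ring))

/-- the tuple has all the configurations -/
def AllCfg (N B : ℕ) (T : Finset ℕ) (r : ℕ) {m : ℕ} (h : Fin m → ℕ) : Prop :=
  ∀ G : SimpleGraph (Fin m), ∃ c : ZMod 2, ∀ Y : ℕ,
    {n : ℕ | CfgF G (fun i => n + h i) c T r ∧ (∀ i, n + h i ≡ 1 [MOD 28 * N]) ∧
      {p : ℕ | p.Prime ∧ |(p : ℤ) - n| ≤ Y}.ncard ≤ B}.Infinite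

/-- **Configurations relative to a finite set of primes, for a positive proportion of the tuples.** -/
theorem relP (m N : ℕ) (hN : 0 < N) (h7 : N.Coprime 7) (T : Finset ℕ)
    (hT : ∀ q ∈ T, q.Prime ∧ q % 4 = 1) :
    ∃ r : ℕ, r.Prime ∧ r ≡ 1 [MOD 4 * N] ∧ r % 7 = 3 ∧ ∃ B : ℕ, ∀ δ : ℝ, 0 < δ → ∃ c : ℝ, 0 < c ∧
      ∃ x₀ : ℕ, ∀ x : ℕ, x₀ ≤ x → ∀ V : Finset ℕ, (∀ v ∈ V, v ≤ x) → δ * x ≤ V.card →
        c * (x : ℝ) ^ m ≤
          ({h : Fin m → ℕ | StrictMono h ∧ (∀ i, h i ∈ V) ∧ AllCfg N B T r h}.ncard : ℝ) := by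
  obtain ⟨r, c₀, hr, hr1, hr2, hc, H⟩ := exists_aux N hN h7 T hT
  have hL : 0 < 7 * (4 * N * ∏ q ∈ T, q) * r := by
    have hP : 0 < ∏ q ∈ T, q := Finset.prod_pos fun q hq => (hT q hq).1.pos
    have := hr.pos
    positivity
  obtain ⟨B, hB⟩ := Pool.Agent.U974.PP.mainC (C := ZMod 2) Pool.Agent.Y698.SG.n4 m
    (7 * (4 * N * ∏ q ∈ T, q) * r) hL
  refine ⟨r, hr, hr1, hr2, B, fun δ hδ => ?_⟩
  obtain ⟨c, hc0, x₀, hx⟩ := hB δ hδ
  refine ⟨c, hc0, x₀, fun x hxx V hV hVc => (hx x hxx V hV hVc).trans ?_⟩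
  have hfin : {h : Fin m → ℕ | StrictMono h ∧ (∀ i, h i ∈ V) ∧ AllCfg N B T r h}.Finite := by
    refine (Fintype.piFinset (fun _ : Fin m => V)).finite_toSet.subset ?_
    rintro h ⟨-, h2, -⟩
    rw [mem_coe, Fintype.mem_piFinset]
    exact h2
  have h1 : {h : Fin m → ℕ | StrictMono h ∧ (∀ i, h i ∈ V) ∧ Pool.Agent.U974.PP.GoodC Pool.Agent.Y698.SG.n4
      (7 * (4 * N * ∏ q ∈ T, q) * r) B h} ⊆
      {h : Fin m → ℕ | StrictMono h ∧ (∀ i, h i ∈ V) ∧ AllCfg N B T r h} := by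
    rintro h ⟨g1, g2, g3⟩
    refine ⟨g1, g2, fun G => ?_⟩
    obtain ⟨c, hc'⟩ := g3 (sgn G) (sgn_or G) c₀ hc
    refine ⟨c, fun Y => (hc' Y).mono ?_⟩
    rintro n ⟨k1, k2, k3⟩
    obtain ⟨k4, k5⟩ := H m G c h n g1 k1 k2
    exact ⟨k4, k5, k3⟩
  exact_mod_cast Set.ncard_le_ncard h1 hfin

end Pool.Agent.U974.TW
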