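import Mathlib
import Pool.Agent.U974.TW.Fld3
import Pool.Agent.U974.TW.FldP

/-! # Fields generated by the square roots of the primes of the configuration -/

set_option autoImplicit false

open scoped Classical

open WeierstrassCurve NumberField
open scoped symmDiff

namespace Pool.Agent.U974.TW

open Pool.Agent.TH841.NF.D (Sha)
open Pool.Agent.R413.SQ (Gd)
open Pool.Agent.Y698.SG (n4)
open Pool.Agent.U120.MF (P4 KT TT sub_KT tw_mem prod_adm tt_gd nz_of)
open Pool.Agent.U80.MQ (tc Om NZ tw fin_K lf_K exists_gens sha_K)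

variable {m : ℕ} {G : SimpleGraph (Fin m)} {f : Fin m → ℕ} {c : ZMod 2} {T : Finset ℕ} {r : ℕ}

theorem mem_PP {f : Fin m → ℕ} {r : ℕ} {U : Finset ℕ} {b : Bool} {S : Finset (Fin m)} {p : ℕ} :
    p ∈ PP f r U b S ↔ p ∈ U ∨ p ∈ exr r b ∨ ∃ i ∈ S, f i = p := by
  unfold PP
  rw [Finset.mem_union, Finset.mem_union, Finset.mem_image, or_assoc]

/-- the set of primes of a twist by a product of primes of `J` and of the configuration -/
theorem CfgF.symm2 (h : CfgF G f c T r) {U J : Finset ℕ} (hU : U ⊆ T) (hJ : J ⊆ T) (b : Bool)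
    {S S' : Finset (Fin m)} (W : Finset ℕ) (hW : W ⊆ J ∪ S.image f) :
    PP f r U b S' ∆ W =
      PP f r (U ∆ (W.filter (fun p => p ∈ J))) b (S' ∆ (S.filter (fun i => f i ∈ W))) := by
  ext p
  rw [Finset.mem_symmDiff, mem_PP, mem_PP]
  by_cases hpT : p ∈ T
  · have h1 : p ∉ exr r b := fun hp => h.rT (mem_exr hp ▸ hpT)
    have h2 : ∀ S'' : Finset (Fin m), ¬ ∃ i ∈ S'', f i = p := by
      rintro S'' ⟨i, -, hi⟩
      exact h.fT i (hi ▸ hpT)
    have h3 : p ∈ W → p ∈ J := by
      intro hp
      rcases Finset.mem_union.1 (hW hp) with h4 | h4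
      · exact h4
      · obtain ⟨i, hi, hi2⟩ := Finset.mem_image.1 h4
        exact absurd ⟨i, hi, hi2⟩ (h2 S)
    have h4 : p ∈ W.filter (fun p => p ∈ J) ↔ p ∈ W := by
      rw [Finset.mem_filter]
      exact ⟨fun h => h.1, fun h => ⟨h, h3 h⟩⟩
    have h5 := h2 S'
    have h6 := h2 (S' ∆ (S.filter (fun i => f i ∈ W)))
    rw [Finset.mem_symmDiff, h4]
    simp only [h1, h5, h6, or_false]
  · have hpU : p ∉ U := fun hp => hpT (hU hp)
    have hpJ : p ∉ J := fun hp => hpT (hJ hp)
    have hpU2 : p ∉ U ∆ (W.filter (fun p => p ∈ J)) := by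
      rw [Finset.mem_symmDiff, Finset.mem_filter]
      tauto
    by_cases hpf : ∃ i, f i = p
    · obtain ⟨i, rfl⟩ := hpf
      have h1 : f i ∉ exr r b := fun hp => h.fr i (mem_exr hp)
      have h2 : ∀ S'' : Finset (Fin m), (∃ j ∈ S'', f j = f i) ↔ i ∈ S'' := by
        intro S''
        constructor
        · rintro ⟨j, hj, hji⟩
          rwa [← h.inj hji]
        · intro hi
          exact ⟨i, hi, rfl⟩
      have h3 : f i ∈ W → i ∈ S := by
        intro hp
        rcases Finset.mem_union.1 (hW hp) with h4 | h4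
        · exact absurd h4 hpJ
        · obtain ⟨j, hj, hji⟩ := Finset.mem_image.1 h4
          rwa [← h.inj hji]
      have e : i ∈ S' ∆ (S.filter (fun i => f i ∈ W)) ↔
          (i ∈ S' ∧ ¬ (i ∈ S ∧ f i ∈ W)) ∨ ((i ∈ S ∧ f i ∈ W) ∧ i ∉ S') := by
        rw [Finset.mem_symmDiff, Finset.mem_filter]
      rw [h2, h2, e]
      simp only [hpU, hpU2, h1, false_or]
      constructor
      · rintro (⟨h4, h5⟩ | ⟨h4, h5⟩)
        · exact Or.inl ⟨h4, fun h6 => h5 h6.2⟩
        · exact Or.inr ⟨⟨h3 h4, h4⟩, h5⟩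
      · rintro (⟨h4, h5⟩ | ⟨h4, h5⟩)
        · exact Or.inl ⟨h4, fun h6 => h5 ⟨h3 h6, h6⟩⟩
        · exact Or.inr ⟨h4.2, h5⟩
    · have h2 : ∀ S'' : Finset (Fin m), ¬ ∃ i ∈ S'', f i = p := by
        rintro S'' ⟨i, -, hi⟩
        exact hpf ⟨i, hi⟩
      have h3 : p ∉ W := by
        intro hp
        rcases Finset.mem_union.1 (hW hp) with h4 | h4
        · exact hpJ h4
        · obtain ⟨i, hi, hi2⟩ := Finset.mem_image.1 h4
          exact hpf ⟨i, hi2⟩
      have h5 := h2 S'
      have h6 := h2 (S' ∆ (S.filter (fun i => f i ∈ W)))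
      simp only [hpU, hpU2, h3, h5, h6, or_false, false_or, false_and, and_true, not_false_iff]

/-- the twist over the fields generated by the roots of primes of `J` and of the configuration -/
theorem CfgF.field2 (h : CfgF G f c T r) {U J : Finset ℕ} (hU : U ⊆ T) (hJ : J ⊆ T)
    (hUJ : ∀ V, V ⊆ J → TT (∏ p ∈ U ∆ V, p)) (b : Bool) (S : Finset (Fin m))
    (hS : ∀ S', S' ⊆ S → Ker G (c + if b then 1 else 0) S') (S' : Finset (Fin m)) (hS' : S' ⊆ S)
    (K : IntermediateField ℚ ℂ) (hK : K ≤ KT ((J ∪ S.image f : Finset ℕ) : Set ℕ))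
    [NumberField K] (D : ℕ) (hD : D = (∏ p ∈ U, p) * ((if b then r else 1) * ∏ i ∈ S', f i)) :
    Finite (tc D K).toAffine.Point ∧
    (∃ G : ℂ → ℂ, Differentiable ℂ G ∧ (∀ s : ℂ, 3 / 2 < s.re →
      HasProd (Pool.Agent.U80.MQ.factor (K := K) (Pool.Agent.U80.MQ.A D)
        (Pool.Agent.U80.MQ.B D) s) (G s)) ∧ G 1 ≠ 0) ∧
    ∀ (k : ℕ) (x : Sha (tc D K)), (2 ^ k : ℕ) • x = 0 → Module.finrank ℚ K • x = 0 := by
  rw [hD, ← h.prod hU b S']
  refine fieldsJ (h.p4 hU b S') (fun p hp => ?_) (fun W hW => ?_) K hK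
  · rcases Finset.mem_union.1 hp with h1 | h1
    · exact h.tprime p (hJ h1)
    · obtain ⟨i, -, rfl⟩ := Finset.mem_image.1 h1
      exact ⟨h.prime i, h.four i⟩
  · rw [h.symm2 hU hJ b W hW]
    have hV : W.filter (fun p => p ∈ J) ⊆ J := fun p hp => (Finset.mem_filter.1 hp).2
    have h1 := symm_subT hU (hV.trans hJ)
    rw [h.gd h1]
    refine ⟨(tt_gd (fun p hp => h.tprime p (h1 hp))).1 (hUJ _ hV), hS _ ?_⟩
    intro i hi
    rcases Finset.mem_symmDiff.1 hi with h2 | h2
    · exact hS' h2.1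
    · exact (Finset.mem_filter.1 h2.1).1

/-- every vertex of `S` has at most one neighbour in `S` -/
def Match {m : ℕ} (G : SimpleGraph (Fin m)) (S : Finset (Fin m)) : Prop :=
  ∀ i ∈ S, ∀ j ∈ S, ∀ k ∈ S, G.Adj i j → G.Adj i k → j = k

theorem Match.mono {S S' : Finset (Fin m)} (h : Match G S) (hS : S' ⊆ S) : Match G S' :=
  fun i hi j hj k hk => h i (hS hi) j (hS hj) k (hS hk)

theorem Match.ker {S : Finset (Fin m)} (h : Match G S) : Ker G 1 S := by
  intro y hy i hi
  have key : ∀ i ∈ S, ∀ j ∈ S, G.Adj i j → y j = 0 := by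
    intro i hi j hj hij
    have h1 := hy i hi
    rw [Finset.sum_eq_single j] at h1
    · rw [if_pos hij, one_mul, one_mul, add_assoc] at h1
      have h2 : y i + y i = 0 := CharTwo.add_self_eq_zero _
      rwa [h2, add_zero] at h1
    · intro k hk hkj
      rw [if_neg, zero_mul]
      intro hik
      exact hkj (h i hi k hk j hj hik hij)
    · intro h2
      exact absurd hj h2
  by_cases hn : ∃ j ∈ S, G.Adj j i
  · obtain ⟨j, hj, hji⟩ := hn
    exact key j hj i hi hji
  · push Not at hn
    have h1 := hy i hi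
    rw [Finset.sum_eq_zero] at h1
    · rwa [zero_add, one_mul] at h1
    · intro j hj
      rw [if_neg, zero_mul]
      intro hij
      exact hn j hj hij.symm

/-- the kernels of all induced subgraphs vanish only for matchings -/
theorem match_of {S : Finset (Fin m)} (h : ∀ S', S' ⊆ S → Ker G 1 S') : Match G S := by
  intro i hi j hj k hk hij hik
  by_contra hjk
  have hne1 : i ≠ j := G.ne_of_adj hij
  have hne2 : i ≠ k := G.ne_of_adj hik
  have hsub : ({i, j, k} : Finset (Fin m)) ⊆ S := by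
    intro x hx
    simp only [Finset.mem_insert, Finset.mem_singleton] at hx
    rcases hx with rfl | rfl | rfl
    · exact hi
    · exact hj
    · exact hk
  have h1 := h _ hsub
  by_cases hadj : G.Adj j k
  · -- triangle: (1, 1, 0)
    have h2 := h1 (fun x => if x = k then 0 else 1) (by
      intro x hx
      simp only [Finset.mem_insert, Finset.mem_singleton] at hx
      rw [Finset.sum_insert (by simp [hne1, hne2]), Finset.sum_insert (by simp [hjk]), Finset.sum_singleton]
      rcases hx with rfl | rfl | rfl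
      · simp [hij, hik, hne2, hjk]
        decide
      · simp [hij.symm, hadj, hne2, hjk]
        decide
      · simp [hik.symm, hadj.symm, hne2, hjk]
        decide) i (by simp)
    simp only [hne2, if_false] at h2
    exact absurd h2 (by decide)
  · -- path: (0, 1, 1)
    have hadj' : ¬ G.Adj k j := fun h => hadj h.symm
    have h2 := h1 (fun x => if x = i then 0 else 1) (by
      intro x hx
      simp only [Finset.mem_insert, Finset.mem_singleton] at hx
      rw [Finset.sum_insert (by simp [hne1, hne2]), Finset.sum_insert (by simp [hjk]), Finset.sum_singleton]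
      rcases hx with rfl | rfl | rfl
      · simp [hij, hik, hne1.symm, hne2.symm]
        try decide
      · simp [hij.symm, hadj, hne1.symm, hne2.symm]
        try decide
      · simp [hik.symm, hadj', hne1.symm, hne2.symm]
        try decide) j (by simp)
    simp only [hne1.symm, if_false] at h2
    exact absurd h2 (by decide)

end Pool.Agent.U974.TW
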